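import Mathlib

/-!
# Irrational algebraic numbers of bounded degree and height: Liouville's inequality, counting
-/

set_option autoImplicit false

namespace Pool.Agent.Helper478.Bases

open Finset Polynomial

/-- the irrational real roots of the irreducible integer polynomials of degree at most `d` with
coefficients of absolute value at most `A` -/
def AlgSet (d : ℕ) (A : ℝ) : Set ℝ :=
  {x | Irrational x ∧ ∃ P : ℤ[X], Irreducible P ∧ P.natDegree ≤ d ∧ (∀ i, |(P.coeff i : ℝ)| ≤ A) ∧
    aeval x P = 0}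

lemma no_rational_root (P : ℤ[X]) (hP : Irreducible P) (x : ℝ) (hx : Irrational x)
    (h0 : aeval x P = 0) (y : ℚ) : aeval (y : ℝ) P ≠ 0 := by
  intro hy
  have hdeg : P.natDegree ≠ 0 := by
    intro h
    rw [natDegree_eq_zero] at h
    obtain ⟨c, hc⟩ := h
    rw [← hc, aeval_C] at h0
    have : c = 0 := by simpa using h0
    rw [this, C_0] at hc
    exact hP.ne_zero hc.symm
  have hprim := hP.isPrimitive hdeg
  have hirr : Irreducible (P.map (Int.castRingHom ℚ)) :=
    (IsPrimitive.Int.irreducible_iff_irreducible_map_cast hprim).1 hP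
  have hroot : IsRoot (P.map (Int.castRingHom ℚ)) y := by
    rw [IsRoot, eval_map]
    have h1 : aeval (y : ℝ) P = ((eval₂ (Int.castRingHom ℚ) y P : ℚ) : ℝ) := by
      rw [aeval_def]
      have := hom_eval₂ P (Int.castRingHom ℚ) (algebraMap ℚ ℝ) y
      rw [eq_ratCast] at this
      rw [this]
      congr 1
    rw [h1] at hy
    exact_mod_cast hy
  have h1 := degree_eq_one_of_irreducible_of_root hirr hroot
  have h2 : P.natDegree = 1 := by
    have h3 := natDegree_eq_of_degree_eq_some h1
    rwa [natDegree_map_eq_of_injective Int.cast_injective] at h3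
  have h3 : aeval x P = P.coeff 1 * x + P.coeff 0 := by
    rw [aeval_eq_sum_range, h2, sum_range_succ, sum_range_one]
    simp
    ring
  rw [h3] at h0
  have h4 : (P.coeff 1 : ℝ) ≠ 0 := by
    have : P.coeff 1 ≠ 0 := by
      rw [← h2]
      exact leadingCoeff_ne_zero.2 hP.ne_zero
    exact_mod_cast this
  apply hx
  refine ⟨-(P.coeff 0 : ℚ) / P.coeff 1, ?_⟩
  push_cast
  field_simp
  linarith

lemma abs_root_le (P : ℤ[X]) (hP : P ≠ 0) (A x : ℝ) (hA : ∀ i, |(P.coeff i : ℝ)| ≤ A)
    (h0 : aeval x P = 0) : |x| ≤ A + 1 := by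
  have hP' : P.map (Int.castRingHom ℝ) ≠ 0 := by
    rwa [Ne, Polynomial.map_eq_zero_iff Int.cast_injective]
  have h1 : IsRoot (P.map (Int.castRingHom ℝ)) x := by
    rw [IsRoot, eval_map]
    exact h0
  have h2 := IsRoot.norm_lt_cauchyBound hP' h1
  have hA0 : 0 ≤ A := (abs_nonneg _).trans (hA 0)
  have h3 : (cauchyBound (P.map (Int.castRingHom ℝ)) : ℝ) ≤ A + 1 := by
    rw [cauchyBound]
    push_cast
    apply add_le_add _ le_rfl
    have h4 : ((range (P.map (Int.castRingHom ℝ)).natDegree).sup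
        fun i => ‖(P.map (Int.castRingHom ℝ)).coeff i‖₊) ≤ Real.toNNReal A := by
      apply Finset.sup_le
      intro i _
      rw [← NNReal.coe_le_coe, coe_nnnorm, coeff_map, Real.coe_toNNReal A hA0]
      exact hA i
    have h5 : (1 : ℝ) ≤ ‖(P.map (Int.castRingHom ℝ)).leadingCoeff‖ := by
      rw [leadingCoeff, coeff_map, natDegree_map_eq_of_injective Int.cast_injective]
      have h6 : P.coeff P.natDegree ≠ 0 := leadingCoeff_ne_zero.2 hP
      have h7 : (1 : ℤ) ≤ |P.coeff P.natDegree| := Int.one_le_abs h6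
      rw [Real.norm_eq_abs]
      have h8 : ((1 : ℤ) : ℝ) ≤ ((|P.coeff P.natDegree| : ℤ) : ℝ) := by exact_mod_cast h7
      rw [Int.cast_abs, Int.cast_one] at h8
      exact h8
    have h6 : (((range (P.map (Int.castRingHom ℝ)).natDegree).sup
        fun i => ‖(P.map (Int.castRingHom ℝ)).coeff i‖₊ : NNReal) : ℝ) ≤ A := by
      rw [← NNReal.coe_le_coe, Real.coe_toNNReal A hA0] at h4
      exact h4
    calc _ ≤ A / 1 := div_le_div₀ hA0 h6 one_pos h5
      _ = A := div_one A
  have h4 : ‖x‖ < (cauchyBound (P.map (Int.castRingHom ℝ)) : ℝ) := by exact_mod_cast h2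
  rw [Real.norm_eq_abs] at h4
  linarith

/-- Liouville's inequality -/
theorem liouville (d : ℕ) (A : ℝ) (hA1 : 1 ≤ A) (x : ℝ) (hx : x ∈ AlgSet d A) (q : ℕ) (hq : 1 ≤ q)
    (p : ℤ) : 1 ≤ ((d : ℝ) + 1) ^ 2 * (A + 2) ^ (d + 1) * (q : ℝ) ^ (d - 1) * |q * x - p| := by
  obtain ⟨hirr, P, hP, hd, hA, h0⟩ := hx
  have hq0 : (0 : ℝ) < q := by exact_mod_cast hq
  have hq1 : (1 : ℝ) ≤ q := by exact_mod_cast hq
  have hd0 : 1 ≤ P.natDegree := by
    by_contra hcon
    have h : P.natDegree = 0 := by omega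
    rw [natDegree_eq_zero] at h
    obtain ⟨c, hc⟩ := h
    rw [← hc, aeval_C] at h0
    have : c = 0 := by simpa using h0
    rw [this, C_0] at hc
    exact hP.ne_zero hc.symm
  set y : ℝ := (p : ℝ) / q with hy
  have hyx : |q * x - p| = q * |x - y| := by
    have : (q : ℝ) * x - p = q * (x - y) := by rw [hy]; field_simp
    rw [this, abs_mul, abs_of_pos hq0]
  have hd1 : 1 ≤ d := hd0.trans hd
  have hL1 : 1 ≤ ((d : ℝ) + 1) ^ 2 * (A + 2) ^ (d + 1) := by
    have h1 : (1 : ℝ) ≤ ((d : ℝ) + 1) ^ 2 := one_le_pow₀ (by linarith [(Nat.cast_nonneg d : (0:ℝ) ≤ d)])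
    have h2 : (1 : ℝ) ≤ (A + 2) ^ (d + 1) := one_le_pow₀ (by linarith)
    nlinarith
  rcases le_or_gt |x - y| 1 with hxy | hxy
  · -- the main case
    have h1 : eval ((p : ℝ) / ((q : ℤ) : ℝ)) (P.map (algebraMap ℤ ℝ)) ≠ 0 := by
      have h2 := no_rational_root P hP x hirr h0 ((p : ℚ) / (q : ℚ))
      rw [aeval_def, ← eval_map] at h2
      push_cast at h2 ⊢
      exact h2
    have h2 := one_le_pow_mul_abs_eval_div (K := ℝ) (f := P) (a := p) (b := (q : ℤ)) (by exact_mod_cast hq) h1
    have h3 : eval ((p : ℝ) / ((q : ℤ) : ℝ)) (P.map (algebraMap ℤ ℝ)) = aeval y P := by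
      rw [aeval_def, ← eval_map, hy]
      push_cast
      rfl
    rw [h3] at h2
    have hxA := abs_root_le P hP.ne_zero A x hA h0
    have hyA : |y| ≤ A + 2 := by
      have : |y| ≤ |x| + |x - y| := by
        have h4 : y = x - (x - y) := by ring
        calc |y| = |x - (x - y)| := by rw [← h4]
          _ ≤ |x| + |x - y| := abs_sub _ _
      linarith
    have h4 : |aeval y P| ≤ ((d : ℝ) + 1) * (A * (|x - y| * d * (A + 2) ^ d)) := by
      have h5 : aeval y P = aeval y P - aeval x P := by rw [h0, sub_zero]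
      rw [h5, aeval_eq_sum_range, aeval_eq_sum_range, ← sum_sub_distrib]
      refine (abs_sum_le_sum_abs _ _).trans ?_
      have h6 : ∀ i ∈ range (P.natDegree + 1), |P.coeff i • y ^ i - P.coeff i • x ^ i| ≤
          A * (|x - y| * d * (A + 2) ^ d) := by
        intro i hi
        rw [mem_range] at hi
        rw [← smul_sub, zsmul_eq_mul, abs_mul]
        apply mul_le_mul (hA i) _ (abs_nonneg _) (by linarith)
        refine (abs_pow_sub_pow_le (a := y) (b := x) (n := i)).trans ?_
        rw [abs_sub_comm y x]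
        have h7 : (max |y| |x|) ^ (i - 1) ≤ (A + 2) ^ d := by
          calc (max |y| |x|) ^ (i - 1) ≤ (A + 2) ^ (i - 1) :=
                pow_le_pow_left₀ (le_max_of_le_left (abs_nonneg _)) (max_le hyA (by linarith)) _
            _ ≤ (A + 2) ^ d := pow_le_pow_right₀ (by linarith) (by omega)
        have h8 : (i : ℝ) ≤ d := by exact_mod_cast (by omega : i ≤ d)
        apply mul_le_mul _ h7 (by positivity) (by positivity)
        exact mul_le_mul_of_nonneg_left h8 (abs_nonneg _)
      refine (sum_le_card_nsmul _ _ _ h6).trans ?_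
      rw [card_range, nsmul_eq_mul]
      apply mul_le_mul_of_nonneg_right
      · exact_mod_cast (by omega : P.natDegree + 1 ≤ d + 1)
      · have : 0 ≤ A + 2 := by linarith
        have hA0 : 0 ≤ A := by linarith
        positivity
    have h5 : (q : ℝ) ^ P.natDegree ≤ (q : ℝ) ^ (d - 1) * q := by
      rw [← pow_succ]
      exact pow_le_pow_right₀ hq1 (by omega)
    have hA2 : 0 ≤ A + 2 := by linarith
    have hA0 : 0 ≤ A := by linarith
    rw [hyx]
    calc 1 ≤ (q : ℝ) ^ P.natDegree * |aeval y P| := by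
          have : (((q : ℤ) : ℝ)) = (q : ℝ) := by push_cast; rfl
          rwa [this] at h2
      _ ≤ ((q : ℝ) ^ (d - 1) * q) * (((d : ℝ) + 1) * (A * (|x - y| * d * (A + 2) ^ d))) := by gcongr
      _ = (((d : ℝ) + 1) * d * (A * (A + 2) ^ d)) * (q : ℝ) ^ (d - 1) * (q * |x - y|) := by ring
      _ ≤ (((d : ℝ) + 1) ^ 2 * (A + 2) ^ (d + 1)) * (q : ℝ) ^ (d - 1) * (q * |x - y|) := by
          apply mul_le_mul_of_nonneg_right _ (by positivity)
          apply mul_le_mul_of_nonneg_right _ (by positivity)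
          apply mul_le_mul
          · rw [sq]; apply mul_le_mul_of_nonneg_left _ (by positivity); linarith
          · rw [pow_succ, mul_comm A]; apply mul_le_mul_of_nonneg_left _ (by positivity); linarith
          · positivity
          · positivity
  · rw [hyx]
    have h1 : (1 : ℝ) ≤ (q : ℝ) ^ (d - 1) := one_le_pow₀ hq1
    have h2 : (1 : ℝ) ≤ q * |x - y| := by nlinarith
    calc (1 : ℝ) = 1 * 1 * 1 := by ring
      _ ≤ _ := by gcongr

/-- the number of algebraic numbers of bounded degree and height -/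
theorem count (d : ℕ) (A : ℝ) (hA0 : 0 ≤ A) : ∃ T : Finset ℝ, AlgSet d A ⊆ (T : Set ℝ) ∧
    (T.card : ℝ) ≤ d * (2 * A + 1) ^ (d + 1) := by
  classical
  set B : Finset (Fin (d + 1) → ℤ) := Fintype.piFinset fun _ => Icc (-(⌊A⌋₊ : ℤ)) (⌊A⌋₊ : ℤ) with hB
  let pol : (Fin (d + 1) → ℤ) → ℤ[X] := fun v => ∑ i : Fin (d + 1), C (v i) * X ^ (i : ℕ)
  have hcoeff : ∀ v : Fin (d + 1) → ℤ, ∀ j : ℕ, (pol v).coeff j =
      if h : j < d + 1 then v ⟨j, h⟩ else 0 := by
    intro v j
    simp only [pol, finsetSum_coeff, coeff_C_mul, coeff_X_pow]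
    split_ifs with h
    · rw [Finset.sum_eq_single (⟨j, h⟩ : Fin (d + 1))]
      · simp
      · intro b _ hb
        rw [if_neg, mul_zero]
        intro h1
        apply hb
        ext
        exact h1.symm
      · intro h1; exact absurd (mem_univ _) h1
    · apply Finset.sum_eq_zero
      intro i _
      rw [if_neg (by have := i.2; omega), mul_zero]
  have hdegpol : ∀ v, (pol v).natDegree ≤ d := by
    intro v
    rw [natDegree_le_iff_coeff_eq_zero]
    intro j hj
    rw [hcoeff, dif_neg (by omega)]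
  refine ⟨B.biUnion fun v => ((pol v).map (Int.castRingHom ℝ)).roots.toFinset, ?_, ?_⟩
  · rintro x ⟨_, P, hP, hd, hA, h0⟩
    rw [Finset.mem_coe, mem_biUnion]
    refine ⟨fun i => P.coeff i, ?_, ?_⟩
    · rw [hB, Fintype.mem_piFinset]
      intro i
      rw [mem_Icc]
      have h1 : |P.coeff i| ≤ (⌊A⌋₊ : ℤ) := by
        have h2 := hA i
        have h3 : ((|P.coeff i| : ℤ) : ℝ) ≤ A := by push_cast; exact h2
        have h4 : |P.coeff i| ≤ ⌊A⌋ := Int.le_floor.2 h3
        rwa [← Int.natCast_floor_eq_floor hA0] at h4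
      exact abs_le.1 h1
    · have h1 : pol (fun i => P.coeff i) = P := by
        ext j
        rw [hcoeff]
        split_ifs with h
        · rfl
        · rw [coeff_eq_zero_of_natDegree_lt (by omega)]
      rw [h1, Multiset.mem_toFinset, mem_roots, IsRoot, eval_map]
      · exact h0
      · rw [Ne, Polynomial.map_eq_zero_iff Int.cast_injective]
        exact hP.ne_zero
  · have h1 : (B.biUnion fun v => ((pol v).map (Int.castRingHom ℝ)).roots.toFinset).card ≤ B.card * d := by
      apply card_biUnion_le_card_mul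
      intro v _
      refine (Multiset.toFinset_card_le _).trans ?_
      refine (card_roots' _).trans ?_
      exact (natDegree_map_le).trans (hdegpol v)
    have h2 : B.card = (2 * ⌊A⌋₊ + 1) ^ (d + 1) := by
      rw [hB, Fintype.card_piFinset, prod_const, card_univ, Fintype.card_fin, Int.card_Icc]
      congr 1
      omega
    rw [h2] at h1
    have h3 : ((B.biUnion fun v => ((pol v).map (Int.castRingHom ℝ)).roots.toFinset).card : ℝ) ≤
        (2 * ⌊A⌋₊ + 1) ^ (d + 1) * d := by exact_mod_cast h1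
    refine h3.trans ?_
    rw [mul_comm]
    have h4 : ((⌊A⌋₊ : ℕ) : ℝ) ≤ A := Nat.floor_le hA0
    gcongr

end Pool.Agent.Helper478.Bases
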