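import Pool.Agent.Helper478_Bases.Main

/-!
# One set of bases of density one
-/

set_option autoImplicit false

namespace Pool.Agent.Helper478.Bases

open Finset Polynomial Filter Topology

/-- the number of the elements of `B` up to `R` -/
noncomputable def cnt (B : Set ℕ) (R : ℕ) : ℕ := {r : ℕ | 1 ≤ r ∧ r ≤ R ∧ r ∈ B}.ncard

lemma cnt_fin (B : Set ℕ) (R : ℕ) : {r : ℕ | 1 ≤ r ∧ r ≤ R ∧ r ∈ B}.Finite :=
  (Set.finite_Icc 1 R).subset fun _ h => ⟨h.1, h.2.1⟩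

lemma cnt_mono {B B' : Set ℕ} (R : ℕ) (h : ∀ r, 1 ≤ r → r ≤ R → r ∈ B → r ∈ B') : cnt B R ≤ cnt B' R :=
  Set.ncard_le_ncard (fun r hr => ⟨hr.1, hr.2.1, h r hr.1 hr.2.1 hr.2.2⟩) (cnt_fin _ _)

/-- the sets of density zero form a P-ideal -/
lemma pideal (B : ℕ → Set ℕ) (hmono : ∀ k l, k ≤ l → B k ⊆ B l)
    (h0 : ∀ k T : ℕ, 1 ≤ T → ∃ R₀ : ℕ, ∀ R : ℕ, R₀ ≤ R → T * cnt (B k) R ≤ R) :
    ∃ Z : Set ℕ, (∀ T : ℕ, 1 ≤ T → ∃ R₀ : ℕ, ∀ R : ℕ, R₀ ≤ R → T * cnt Z R ≤ R) ∧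
      ∀ k, ∃ r₀ : ℕ, ∀ r : ℕ, r₀ ≤ r → r ∈ B k → r ∈ Z := by
  classical
  refine ⟨{r | ∃ k, r ∈ B k ∧ ∀ R : ℕ, r ≤ R → (k + 1) * cnt (B k) R ≤ R}, ?_, ?_⟩
  · intro T hT
    obtain ⟨R₀, hR₀⟩ := h0 T T hT
    refine ⟨R₀, fun R hR => ?_⟩
    set Z : Set ℕ := {r | ∃ k, r ∈ B k ∧ ∀ R : ℕ, r ≤ R → (k + 1) * cnt (B k) R ≤ R} with hZ
    have hch : ∀ r : ℕ, ∃ k, r ∈ Z → (r ∈ B k ∧ ∀ R : ℕ, r ≤ R → (k + 1) * cnt (B k) R ≤ R) := by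
      intro r
      by_cases hr : r ∈ Z
      · obtain ⟨k, hk⟩ := hr
        exact ⟨k, fun _ => hk⟩
      · exact ⟨0, fun h => absurd h hr⟩
    choose κ hκ using hch
    rcases (Icc 1 R).filter (fun r => r ∈ Z) |>.eq_empty_or_nonempty with hS | hS
    · have : cnt Z R = 0 := by
        rw [cnt, Set.ncard_eq_zero (cnt_fin _ _)]
        ext r
        simp only [Set.mem_empty_iff_false, iff_false]
        rintro ⟨h1, h2, h3⟩
        have : r ∈ (Icc 1 R).filter (fun r => r ∈ Z) := by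
          rw [mem_filter, mem_Icc]; exact ⟨⟨h1, h2⟩, h3⟩
        rw [hS] at this
        exact absurd this (by simp)
      rw [this]; omega
    · obtain ⟨m, hm, hmax⟩ := exists_max_image _ κ hS
      rw [mem_filter, mem_Icc] at hm
      have hsub : ∀ r, 1 ≤ r → r ≤ R → r ∈ Z → r ∈ B (κ m) := by
        intro r h1 h2 h3
        have h4 := hmax r (by rw [mem_filter, mem_Icc]; exact ⟨⟨h1, h2⟩, h3⟩)
        exact hmono _ _ h4 ((hκ r h3).1)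
      rcases Nat.lt_or_ge (κ m) T with h1 | h1
      · have h2 : cnt Z R ≤ cnt (B T) R :=
          cnt_mono R fun r a b c => hmono _ _ h1.le (hsub r a b c)
        exact (Nat.mul_le_mul_left T h2).trans (hR₀ R hR)
      · have h2 : cnt Z R ≤ cnt (B (κ m)) R := cnt_mono R hsub
        have h3 := (hκ m hm.2).2 R hm.1.2
        calc T * cnt Z R ≤ (κ m + 1) * cnt (B (κ m)) R := Nat.mul_le_mul (by omega) h2
          _ ≤ R := h3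
  · intro k
    obtain ⟨R₀, hR₀⟩ := h0 k (k + 1) (by omega)
    exact ⟨R₀, fun r hr hrk => ⟨k, hrk, fun R hR => hR₀ R (hr.trans hR)⟩⟩

/-- an irrational algebraic number is a root of an irreducible integer polynomial -/
lemma exists_mem (x : ℝ) (hx : Irrational x) (ha : IsAlgebraic ℤ x) : ∃ k₀ : ℕ, ∀ k : ℕ, k₀ ≤ k →
    x ∈ AlgSet k k := by
  obtain ⟨P, hP0, hPx⟩ := ha
  obtain ⟨f, hf, hassoc⟩ := WfDvdMonoid.exists_factors P hP0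
  obtain ⟨u, hu⟩ := hassoc
  have h1 : aeval x f.prod = 0 := by
    rw [← hu, map_mul] at hPx
    have h2 : aeval x (u : ℤ[X]) ≠ 0 := (u.isUnit.map (aeval x)).ne_zero
    exact (mul_eq_zero.1 hPx).resolve_right h2
  have h2 : ∃ Q ∈ f, aeval x Q = 0 := by
    rw [map_multiset_prod, Multiset.prod_eq_zero_iff, Multiset.mem_map] at h1
    exact h1
  obtain ⟨Q, hQ, hQx⟩ := h2
  refine ⟨max Q.natDegree (∑ i ∈ range (Q.natDegree + 1), (Q.coeff i).natAbs), ?_⟩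
  intro k hk
  refine ⟨hx, Q, hf Q hQ, (le_max_left _ _).trans hk, ?_, hQx⟩
  intro i
  by_cases hi : i ∈ range (Q.natDegree + 1)
  · have h3 : (Q.coeff i).natAbs ≤ ∑ i ∈ range (Q.natDegree + 1), (Q.coeff i).natAbs :=
      single_le_sum (f := fun i => (Q.coeff i).natAbs) (fun _ _ => Nat.zero_le _) hi
    have h4 : (Q.coeff i).natAbs ≤ k := h3.trans ((le_max_right _ _).trans hk)
    have h5 : |(Q.coeff i : ℝ)| = ((Q.coeff i).natAbs : ℝ) := by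
      rw [Nat.cast_natAbs, Int.cast_abs]
    rw [h5]
    exact_mod_cast h4
  · rw [mem_range, Nat.not_lt] at hi
    rw [coeff_eq_zero_of_natDegree_lt (by omega)]
    simp

/-- **Main theorem** -/
theorem main : ∃ κ : ℕ, 1 ≤ κ ∧
    (∀ d : ℕ, 1 ≤ d → ∀ ε : ℝ, 0 < ε → ∃ c : ℝ, 0 < c ∧ ∃ N₀ : ℕ,
      ∀ N R : ℕ, N₀ ≤ N →
      (({r : ℕ | 1 ≤ r ∧ r ≤ R ∧ ∃ x ∈ AlgSet d (Real.exp (c * N)), ∃ n : ℕ, N ≤ n ∧
        (n : ℝ) ^ κ ≤ Real.log R ∧ ¬ Equi r n ε x}.ncard : ℕ) : ℝ) ≤ Real.exp (-(c * N)) * R) ∧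
    (∀ g : ℕ → ℕ, Tendsto g atTop atTop → ∃ 𝓑 : Set ℕ,
      Tendsto (fun R : ℕ => (({r : ℕ | 1 ≤ r ∧ r ≤ R ∧ r ∈ 𝓑}.ncard : ℕ) : ℝ) / R) atTop (𝓝 1) ∧
      ∀ x : ℝ, Irrational x → IsAlgebraic ℤ x → ∀ ε : ℝ, 0 < ε → ∀ᶠ r : ℕ in atTop, r ∈ 𝓑 →
        ∀ n : ℕ, g r ≤ n → (n : ℝ) ^ κ ≤ Real.log r → Equi r n ε x) := by
  classical
  obtain ⟨κ, hκ, hfew⟩ := few
  refine ⟨κ, hκ, hfew, ?_⟩
  intro g hg
  let B : ℕ → Set ℕ := fun k => {r | ∃ x ∈ AlgSet k k, ∃ n : ℕ, g r ≤ n ∧ (n : ℝ) ^ κ ≤ Real.log r ∧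
    ¬ Equi r n (1 / (k + 1)) x}
  have hmono : ∀ k l, k ≤ l → B k ⊆ B l := by
    rintro k l hkl r ⟨x, hx, n, h1, h2, h3⟩
    refine ⟨x, AlgSet.mono hkl (by exact_mod_cast hkl) hx, n, h1, h2, fun h4 => h3 (h4.mono ?_)⟩
    apply one_div_le_one_div_of_le (by positivity)
    have : (k : ℝ) ≤ l := by exact_mod_cast hkl
    linarith
  have h0 : ∀ k T : ℕ, 1 ≤ T → ∃ R₀ : ℕ, ∀ R : ℕ, R₀ ≤ R → T * cnt (B k) R ≤ R := by
    intro k T hT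
    have hT0 : (0 : ℝ) < T := by exact_mod_cast hT
    obtain ⟨c, hc, N₀, hN₀⟩ := hfew (k + 1) (by omega) (1 / (k + 1)) (by positivity)
    -- choose `N`
    obtain ⟨N, hNN, hN2, hN3⟩ : ∃ N : ℕ, N₀ ≤ N ∧ (k : ℝ) ≤ Real.exp (c * N) ∧
        Real.exp (-(c * N)) ≤ 1 / (2 * T) := by
      have ht : Tendsto (fun N : ℕ => Real.exp (c * N)) atTop atTop :=
        Real.tendsto_exp_atTop.comp (tendsto_natCast_atTop_atTop.const_mul_atTop hc)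
      have e1 := ht.eventually_ge_atTop (k : ℝ)
      have e2 := ht.eventually_ge_atTop (2 * T : ℝ)
      obtain ⟨N, h1, h2, h3⟩ := ((eventually_ge_atTop N₀).and (e1.and e2)).exists
      refine ⟨N, h1, h2, ?_⟩
      rw [Real.exp_neg, inv_eq_one_div]
      exact one_div_le_one_div_of_le (by positivity) h3
    obtain ⟨r₀, hr₀⟩ := eventually_atTop.1 (hg.eventually_ge_atTop N)
    refine ⟨2 * T * (r₀ + 1), fun R hR => ?_⟩
    have hsub : {r : ℕ | 1 ≤ r ∧ r ≤ R ∧ r ∈ B k} ⊆ (Icc 1 r₀ : Finset ℕ) ∪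
        {r : ℕ | 1 ≤ r ∧ r ≤ R ∧ ∃ x ∈ AlgSet (k + 1) (Real.exp (c * N)), ∃ n : ℕ, N ≤ n ∧
        (n : ℝ) ^ κ ≤ Real.log R ∧ ¬ Equi r n (1 / (k + 1)) x} := by
      rintro r ⟨h1, h2, x, hx, n, h3, h4, h5⟩
      rcases Nat.lt_or_ge r r₀ with h6 | h6
      · left
        rw [Finset.mem_coe, mem_Icc]
        exact ⟨h1, h6.le⟩
      · right
        refine ⟨h1, h2, x, AlgSet.mono (by omega) hN2 hx, n, (hr₀ r h6).trans h3, h4.trans ?_, h5⟩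
        apply Real.log_le_log (by exact_mod_cast h1)
        exact_mod_cast h2
    have hfin : {r : ℕ | 1 ≤ r ∧ r ≤ R ∧ ∃ x ∈ AlgSet (k + 1) (Real.exp (c * N)), ∃ n : ℕ, N ≤ n ∧
        (n : ℝ) ^ κ ≤ Real.log R ∧ ¬ Equi r n (1 / (k + 1)) x}.Finite :=
      (Set.finite_Icc 1 R).subset fun _ h => ⟨h.1, h.2.1⟩
    have h1 : (cnt (B k) R : ℝ) ≤ r₀ + Real.exp (-(c * N)) * R := by
      have h2 : cnt (B k) R ≤ (Icc 1 r₀ : Finset ℕ).card +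
          {r : ℕ | 1 ≤ r ∧ r ≤ R ∧ ∃ x ∈ AlgSet (k + 1) (Real.exp (c * N)), ∃ n : ℕ, N ≤ n ∧
          (n : ℝ) ^ κ ≤ Real.log R ∧ ¬ Equi r n (1 / (k + 1)) x}.ncard := by
        rw [← Set.ncard_coe_finset]
        exact (Set.ncard_le_ncard hsub ((Finset.finite_toSet _).union hfin)).trans (Set.ncard_union_le _ _)
      rw [Nat.card_Icc, Nat.add_sub_cancel] at h2
      have h3 := hN₀ N R hNN
      have h4 : (cnt (B k) R : ℝ) ≤ r₀ +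
          (({r : ℕ | 1 ≤ r ∧ r ≤ R ∧ ∃ x ∈ AlgSet (k + 1) (Real.exp (c * N)), ∃ n : ℕ, N ≤ n ∧
          (n : ℝ) ^ κ ≤ Real.log R ∧ ¬ Equi r n (1 / (k + 1)) x}.ncard : ℕ) : ℝ) := by
        exact_mod_cast h2
      linarith
    have h2 : (T : ℝ) * cnt (B k) R ≤ R := by
      have h3 : (2 * T * (r₀ + 1) : ℝ) ≤ R := by exact_mod_cast hR
      have h4 : (T : ℝ) * (Real.exp (-(c * N)) * R) ≤ R / 2 := by
        calc (T : ℝ) * (Real.exp (-(c * N)) * R) ≤ T * (1 / (2 * T) * R) := by gcongr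
          _ = R / 2 := by field_simp
      have h5 : (T : ℝ) * r₀ ≤ R / 2 := by nlinarith
      calc (T : ℝ) * cnt (B k) R ≤ T * (r₀ + Real.exp (-(c * N)) * R) := by gcongr
        _ ≤ R := by linarith
    exact_mod_cast h2
  obtain ⟨Z, hZ1, hZ2⟩ := pideal B hmono h0
  refine ⟨Zᶜ, ?_, ?_⟩
  · rw [Metric.tendsto_atTop]
    intro δ hδ
    obtain ⟨T, hT⟩ := exists_nat_gt (1 / δ)
    have hT0 : (0 : ℝ) < T := lt_trans (by positivity) hT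
    have hT1 : 1 ≤ T := by exact_mod_cast hT0
    obtain ⟨R₀, hR₀⟩ := hZ1 T hT1
    refine ⟨max R₀ 1, fun R hR => ?_⟩
    have hR1 : 1 ≤ R := (le_max_right _ _).trans hR
    have hR0 : (0 : ℝ) < R := by exact_mod_cast hR1
    have h1 := hR₀ R ((le_max_left _ _).trans hR)
    have h2 : {r : ℕ | 1 ≤ r ∧ r ≤ R ∧ r ∈ Zᶜ}.ncard + cnt Z R = R := by
      have hdis : Disjoint {r : ℕ | 1 ≤ r ∧ r ≤ R ∧ r ∈ Zᶜ} {r : ℕ | 1 ≤ r ∧ r ≤ R ∧ r ∈ Z} := by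
        rw [Set.disjoint_left]
        rintro r ⟨_, _, h3⟩ ⟨_, _, h4⟩
        exact h3 h4
      rw [cnt, ← Set.ncard_union_eq hdis (cnt_fin _ _) (cnt_fin _ _)]
      have : {r : ℕ | 1 ≤ r ∧ r ≤ R ∧ r ∈ Zᶜ} ∪ {r : ℕ | 1 ≤ r ∧ r ≤ R ∧ r ∈ Z} =
          ((Icc 1 R : Finset ℕ) : Set ℕ) := by
        ext r
        simp only [Set.mem_union, Set.mem_ofPred_eq, Set.mem_compl_iff, Finset.coe_Icc, Set.mem_Icc]
        tauto
      rw [this, Set.ncard_coe_finset, Nat.card_Icc]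
      omega
    have h3 : (({r : ℕ | 1 ≤ r ∧ r ≤ R ∧ r ∈ Zᶜ}.ncard : ℕ) : ℝ) = R - cnt Z R := by
      have : (({r : ℕ | 1 ≤ r ∧ r ≤ R ∧ r ∈ Zᶜ}.ncard : ℕ) : ℝ) + cnt Z R = R := by exact_mod_cast h2
      linarith
    have h4 : (T : ℝ) * cnt Z R ≤ R := by exact_mod_cast h1
    rw [h3, Real.dist_eq]
    have h5 : ((R : ℝ) - cnt Z R) / R - 1 = -(cnt Z R / R) := by field_simp; ring
    rw [h5, abs_neg, abs_of_nonneg (by positivity)]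
    have h6 : (cnt Z R : ℝ) / R ≤ 1 / T := by
      rw [div_le_div_iff₀ hR0 hT0]; linarith
    refine h6.trans_lt ?_
    rw [div_lt_iff₀ hT0]
    rw [div_lt_iff₀ hδ] at hT
    linarith
  · intro x hx ha ε hε
    obtain ⟨k₀, hk₀⟩ := exists_mem x hx ha
    obtain ⟨k₁, hk₁⟩ := exists_nat_gt (1 / ε)
    set k := max k₀ k₁ with hk
    obtain ⟨r₀, hr₀⟩ := hZ2 k
    filter_upwards [eventually_ge_atTop r₀] with r hr hrZ n hn1 hn2
    by_contra hcon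
    apply hrZ
    apply hr₀ r hr
    refine ⟨x, hk₀ k (le_max_left _ _), n, hn1, hn2, fun h4 => hcon (h4.mono ?_)⟩
    have h5 : (k₁ : ℝ) ≤ k := by exact_mod_cast le_max_right _ _
    rw [div_le_iff₀ (by positivity)]
    rw [div_lt_iff₀ hε] at hk₁
    nlinarith

end Pool.Agent.Helper478.Bases
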