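import Pool.Agent.Helper478_Bases.FewAbs
import Pool.Agent.TH456.TM.E

/-!
# The fields generated by `e`, `π`, `√2`
-/

set_option autoImplicit false

namespace Pool.Agent.Helper478.Bases

open Finset Polynomial Filter Topology
open Pool.Agent.TH456.TM (MeasT abs_aeval measT_e measT_pi)

/-- a polynomial lower bound for the nonzero values of integer polynomials -/
def MeasW (θ : ℝ) : Prop := ∀ D : ℕ, ∃ κ : ℕ, ∃ C : ℝ, 1 ≤ C ∧ ∀ P : ℤ[X], P.natDegree ≤ D →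
  ∀ H : ℝ, 1 ≤ H → (∀ j, |(P.coeff j : ℝ)| ≤ H) → aeval θ P ≠ 0 → 1 ≤ C * H ^ κ * |aeval θ P|

lemma measW_of_measT (θ : ℝ) (h : MeasT (θ : ℂ)) : MeasW θ := by
  intro D
  obtain ⟨κ, c, hκ, hc, hP⟩ := h D
  refine ⟨⌈κ⌉₊, max 1 (1 / c), le_max_left _ _, ?_⟩
  intro P hD H hH hcoef hne
  have h0 : P ≠ 0 := by
    rintro rfl
    exact hne (map_zero _)
  have h1 := hP P h0 hD H hH hcoef
  rw [← abs_aeval] at h1
  have h2 : H ^ κ ≤ H ^ ⌈κ⌉₊ := by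
    rw [← Real.rpow_natCast]
    exact Real.rpow_le_rpow_of_exponent_le hH (Nat.le_ceil κ)
  have h3 : c ≤ H ^ ⌈κ⌉₊ * |aeval θ P| := h1.trans (by gcongr)
  have h4 : 1 ≤ 1 / c * (H ^ ⌈κ⌉₊ * |aeval θ P|) := by
    rw [one_div, ← div_eq_inv_mul, le_div_iff₀ hc, one_mul]
    exact h3
  have hH0 : 0 < H := by linarith
  calc 1 ≤ 1 / c * (H ^ ⌈κ⌉₊ * |aeval θ P|) := h4
    _ ≤ max 1 (1 / c) * (H ^ ⌈κ⌉₊ * |aeval θ P|) := by
        gcongr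
        exact le_max_right _ _
    _ = _ := by ring

lemma measW_sqrt_two : MeasW (√2) := by
  intro D
  have hs2 : √(2 : ℝ) * √2 = 2 := Real.mul_self_sqrt (by norm_num)
  have hs0 : (0 : ℝ) ≤ √2 := Real.sqrt_nonneg 2
  have hs : √(2 : ℝ) ≤ 2 := by nlinarith
  have hpow : ∀ j : ℕ, ∃ u v : ℤ, (√(2 : ℝ)) ^ j = u + v * √2 ∧ |(u : ℝ)| ≤ 2 ^ j ∧ |(v : ℝ)| ≤ 2 ^ j := by
    intro j
    induction j with
    | zero => exact ⟨1, 0, by simp, by simp, by simp⟩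
    | succ j ih =>
      obtain ⟨u, v, h1, h2, h3⟩ := ih
      refine ⟨2 * v, u, ?_, ?_, ?_⟩
      · rw [pow_succ, h1]
        push_cast
        linear_combination (v : ℝ) * hs2
      · push_cast
        rw [abs_mul, abs_of_pos (by norm_num : (0 : ℝ) < 2), pow_succ]
        linarith
      · rw [pow_succ]
        have : (0 : ℝ) ≤ 2 ^ j := by positivity
        linarith
  choose u v hu1 hu2 hv2 using hpow
  refine ⟨1, 3 * ((D + 1) * 2 ^ D), ?_, ?_⟩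
  · have h1 : (1 : ℝ) ≤ 2 ^ D := one_le_pow₀ (by norm_num)
    have h2 : (0 : ℝ) ≤ D := Nat.cast_nonneg D
    nlinarith
  intro P hD H hH hcoef hne
  have hP : aeval (√2) P = ((∑ j ∈ range (D + 1), P.coeff j * u j : ℤ) : ℝ) +
      ((∑ j ∈ range (D + 1), P.coeff j * v j : ℤ) : ℝ) * √2 := by
    have h1 : aeval (√(2 : ℝ)) P = ∑ j ∈ range (D + 1), (P.coeff j : ℝ) * (√2) ^ j := by
      rw [aeval_eq_sum_range' (by omega : P.natDegree < D + 1)]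
      refine sum_congr rfl fun j _ => ?_
      rw [zsmul_eq_mul]
    rw [h1]
    push_cast
    rw [sum_mul, ← sum_add_distrib]
    refine sum_congr rfl fun j _ => ?_
    rw [hu1]
    ring
  set a : ℤ := ∑ j ∈ range (D + 1), P.coeff j * u j with ha
  set b : ℤ := ∑ j ∈ range (D + 1), P.coeff j * v j with hb
  have hbd : ∀ w : ℕ → ℤ, (∀ j, |(w j : ℝ)| ≤ 2 ^ j) →
      |((∑ j ∈ range (D + 1), P.coeff j * w j : ℤ) : ℝ)| ≤ (D + 1) * 2 ^ D * H := by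
    intro w hw
    push_cast
    refine (abs_sum_le_sum_abs _ _).trans ?_
    refine (sum_le_card_nsmul _ _ (2 ^ D * H) fun j hj => ?_).trans ?_
    · rw [abs_mul]
      rw [mem_range] at hj
      calc |(P.coeff j : ℝ)| * |(w j : ℝ)| ≤ H * 2 ^ j :=
            mul_le_mul (hcoef j) (hw j) (abs_nonneg _) (by linarith)
        _ ≤ H * 2 ^ D := by
            gcongr
            · norm_num
            · omega
        _ = 2 ^ D * H := mul_comm _ _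
    · rw [card_range, nsmul_eq_mul]
      push_cast
      linarith
  have ha2 := hbd u hu2
  have hb2 := hbd v hv2
  rw [← ha] at ha2
  rw [← hb] at hb2
  have hnorm : a ^ 2 - 2 * b ^ 2 ≠ 0 := by
    intro h0
    by_cases hb0 : b = 0
    · rw [hb0] at h0
      have : a = 0 := by
        have : a ^ 2 = 0 := by linarith
        exact pow_eq_zero_iff (two_ne_zero) |>.1 this
      apply hne
      rw [hP, this, hb0]
      simp
    · have hb0' : (b : ℝ) ≠ 0 := by exact_mod_cast hb0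
      have h1 : ((a : ℝ) / b) ^ 2 = 2 := by
        have : ((a : ℝ)) ^ 2 - 2 * (b : ℝ) ^ 2 = 0 := by exact_mod_cast h0
        field_simp
        linarith
      have h2 : Irrational (√2) := irrational_sqrt_two
      apply h2
      refine ⟨|(a : ℚ) / b|, ?_⟩
      push_cast
      rw [← abs_of_nonneg hs0]
      have h3 : |(a : ℝ) / b| ^ 2 = √2 ^ 2 := by
        rw [sq_abs, h1, Real.sq_sqrt (by norm_num)]
      rw [abs_div] at h3
      have h4 := (sq_eq_sq₀ (by positivity) hs0).1 h3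
      rw [abs_div, abs_of_nonneg hs0]
      exact h4
  have h1 : (1 : ℝ) ≤ |((a ^ 2 - 2 * b ^ 2 : ℤ) : ℝ)| := by
    have := Int.one_le_abs hnorm
    exact_mod_cast this
  have h2 : ((a ^ 2 - 2 * b ^ 2 : ℤ) : ℝ) = (a - b * √2) * (a + b * √2) := by
    push_cast
    linear_combination (-(b : ℝ) ^ 2) * (-hs2)
  rw [h2, abs_mul] at h1
  have h3 : |(a : ℝ) - b * √2| ≤ 3 * ((D + 1) * 2 ^ D) * H := by
    refine (abs_sub _ _).trans ?_
    rw [abs_mul, abs_of_nonneg hs0]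
    have : |(b : ℝ)| * √2 ≤ ((D + 1) * 2 ^ D * H) * 2 :=
      mul_le_mul hb2 hs hs0 ((abs_nonneg _).trans hb2)
    linarith
  rw [hP, pow_one]
  exact h1.trans (mul_le_mul_of_nonneg_right h3 (abs_nonneg _))

lemma aeval_le (θ : ℝ) (d : ℕ) (P : ℤ[X]) (hd : P.natDegree ≤ d) (H : ℝ)
    (hH : ∀ j, |(P.coeff j : ℝ)| ≤ H) : |aeval θ P| ≤ (d + 1) * (max 1 |θ|) ^ d * H := by
  have hH0 : 0 ≤ H := (abs_nonneg _).trans (hH 0)
  rw [aeval_eq_sum_range' (by omega : P.natDegree < d + 1)]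
  refine (abs_sum_le_sum_abs _ _).trans ?_
  refine (sum_le_card_nsmul _ _ ((max 1 |θ|) ^ d * H) fun j hj => ?_).trans ?_
  · rw [zsmul_eq_mul, abs_mul, abs_pow]
    rw [mem_range] at hj
    calc |(P.coeff j : ℝ)| * |θ| ^ j ≤ H * (max 1 |θ|) ^ d := by
          apply mul_le_mul (hH j) _ (by positivity) hH0
          calc |θ| ^ j ≤ (max 1 |θ|) ^ j := by gcongr; exact le_max_right _ _
            _ ≤ (max 1 |θ|) ^ d := pow_le_pow_right₀ (le_max_left _ _) (by omega)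
      _ = _ := mul_comm _ _
  · rw [card_range, nsmul_eq_mul]
    push_cast
    linarith

/-- rational functions of `θ` are not Liouville numbers, uniformly -/
lemma dio (θ : ℝ) (hθ : MeasW θ) (d : ℕ) : ∃ D B : ℕ, ∃ C₁ : ℝ, 1 ≤ C₁ ∧
    ∀ H : ℝ, 1 ≤ H → ∀ P Q : ℤ[X], P.natDegree ≤ d → Q.natDegree ≤ d → (∀ j, |(P.coeff j : ℝ)| ≤ H) →
    (∀ j, |(Q.coeff j : ℝ)| ≤ H) → Irrational (aeval θ P / aeval θ Q) → ∀ q : ℕ, 1 ≤ q → ∀ p : ℤ,
    1 ≤ C₁ * H ^ B * (q : ℝ) ^ D * |q * (aeval θ P / aeval θ Q) - p| := by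
  obtain ⟨κ, C', hC', hm⟩ := hθ d
  set S : ℝ := (d + 1) * (max 1 |θ|) ^ d with hS
  have hS1 : 1 ≤ S := by
    have h1 : (1 : ℝ) ≤ (max 1 |θ|) ^ d := one_le_pow₀ (le_max_left _ _)
    have h2 : (0 : ℝ) ≤ d := Nat.cast_nonneg d
    rw [hS]; nlinarith
  have hS0 : 0 < S := by linarith
  have hC0 : 0 < C' := by linarith
  have hbase : (1 : ℝ) ≤ C' * (3 * S * C') ^ κ * S := by
    have h1 : (1 : ℝ) ≤ 3 * S * C' := by nlinarith
    have h2 : (1 : ℝ) ≤ (3 * S * C') ^ κ := one_le_pow₀ h1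
    calc (1 : ℝ) = 1 * 1 * 1 := by ring
      _ ≤ _ := by gcongr
  refine ⟨κ, (κ + 2) * κ + 1, C' * (3 * S * C') ^ κ * S, hbase, ?_⟩
  intro H hH P Q hPd hQd hPH hQH hirr q hq p
  have hH0 : 0 < H := by linarith
  have hq0 : (0 : ℝ) < q := by exact_mod_cast hq
  have hq1 : (1 : ℝ) ≤ q := by exact_mod_cast hq
  have hQ0 : aeval θ Q ≠ 0 := by
    intro h0
    rw [h0, div_zero] at hirr
    exact hirr.ne_zero rfl
  set x : ℝ := aeval θ P / aeval θ Q with hx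
  have hQm := hm Q hQd H hH hQH hQ0
  have hQpos : 0 < |aeval θ Q| := abs_pos.2 hQ0
  have hPle := aeval_le θ d P hPd H hPH
  have hQle := aeval_le θ d Q hQd H hQH
  rw [← hS] at hPle hQle
  have hxle : |x| ≤ S * C' * H ^ (κ + 1) := by
    rw [hx, abs_div, div_le_iff₀ hQpos]
    calc |aeval θ P| ≤ S * H * 1 := by rw [mul_one]; exact hPle
      _ ≤ S * H * (C' * H ^ κ * |aeval θ Q|) := by gcongr
      _ = S * C' * H ^ (κ + 1) * |aeval θ Q| := by rw [pow_succ]; ring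
  have hne : (q : ℝ) * x - p ≠ 0 := by
    intro h0
    apply hirr
    refine ⟨(p : ℚ) / q, ?_⟩
    push_cast
    rw [div_eq_iff hq0.ne']
    linarith
  rcases le_or_gt 1 |q * x - p| with h1 | h1
  · calc (1 : ℝ) = 1 * 1 * 1 * 1 := by ring
      _ ≤ _ := by
        gcongr
        · exact one_le_pow₀ hH
        · exact one_le_pow₀ hq1
  · have hp : |(p : ℝ)| ≤ 2 * S * C' * q * H ^ (κ + 1) := by
      have h2 : |(p : ℝ)| ≤ q * |x| + 1 := by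
        have h3 : (p : ℝ) = q * x - (q * x - p) := by ring
        calc |(p : ℝ)| = |q * x - (q * x - p)| := by rw [← h3]
          _ ≤ |q * x| + |q * x - p| := abs_sub _ _
          _ ≤ q * |x| + 1 := by rw [abs_mul, abs_of_pos hq0]; linarith
      have h3 : (1 : ℝ) ≤ S * C' * q * H ^ (κ + 1) := by
        calc (1 : ℝ) = 1 * 1 * 1 * 1 := by ring
          _ ≤ _ := by
            gcongr
            exact one_le_pow₀ hH
      have h4 : (q : ℝ) * |x| ≤ q * (S * C' * H ^ (κ + 1)) := by gcongr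
      nlinarith
    set W : ℤ[X] := C (q : ℤ) * P - C p * Q with hW
    have hWd : W.natDegree ≤ d := by
      refine (natDegree_sub_le _ _).trans (max_le ?_ ?_)
      · exact (natDegree_C_mul_le _ _).trans hPd
      · exact (natDegree_C_mul_le _ _).trans hQd
    have hWe : aeval θ W = aeval θ Q * (q * x - p) := by
      rw [hW, map_sub, map_mul, map_mul, aeval_C, aeval_C, hx]
      simp only [algebraMap_int_eq, eq_intCast, Int.cast_natCast]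
      field_simp
    have hW0 : aeval θ W ≠ 0 := by
      rw [hWe]; exact mul_ne_zero hQ0 hne
    set H' : ℝ := 3 * S * C' * q * H ^ (κ + 2) with hH'
    have hWH : ∀ j, |(W.coeff j : ℝ)| ≤ H' := by
      intro j
      rw [hW, coeff_sub, coeff_C_mul, coeff_C_mul]
      push_cast
      refine (abs_sub _ _).trans ?_
      rw [abs_mul, abs_mul, abs_of_pos hq0]
      have e1 : (q : ℝ) * |(P.coeff j : ℝ)| ≤ S * C' * q * H ^ (κ + 2) := by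
        calc (q : ℝ) * |(P.coeff j : ℝ)| ≤ q * H := by gcongr; exact hPH j
          _ = 1 * 1 * q * H ^ 1 := by ring
          _ ≤ S * C' * q * H ^ (κ + 2) := by
              gcongr
              omega
      have e2 : |(p : ℝ)| * |(Q.coeff j : ℝ)| ≤ (2 * S * C' * q * H ^ (κ + 1)) * H := by
        gcongr
        exact hQH j
      have e3 : (2 * S * C' * q * H ^ (κ + 1)) * H = 2 * (S * C' * q * H ^ (κ + 2)) := by
        rw [pow_succ H (κ + 1)]; ring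
      rw [hH']
      rw [e3] at e2
      linarith
    have hH'1 : 1 ≤ H' := by
      rw [hH']
      calc (1 : ℝ) = 1 * 1 * 1 * 1 * 1 := by ring
        _ ≤ _ := by
          gcongr
          · norm_num
          · exact one_le_pow₀ hH
    have h2 := hm W hWd H' hH'1 hWH hW0
    rw [hWe, abs_mul] at h2
    calc 1 ≤ C' * H' ^ κ * (|aeval θ Q| * |q * x - p|) := h2
      _ ≤ C' * H' ^ κ * ((S * H) * |q * x - p|) := by gcongr
      _ = C' * (3 * S * C') ^ κ * S * H ^ ((κ + 2) * κ + 1) * (q : ℝ) ^ κ * |q * x - p| := by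
          rw [hH', mul_pow (3 * S * C' * q), mul_pow (3 * S * C'), ← pow_mul, pow_succ H ((κ + 2) * κ)]
          ring

/-- the elements of the fields `ℚ(θ)`, `θ ∈ Θ`, of bounded degree and height -/
def FieldSet (Θ : Set ℝ) (d : ℕ) (H : ℝ) : Set ℝ :=
  {x | Irrational x ∧ ∃ θ ∈ Θ, ∃ P Q : ℤ[X], P.natDegree ≤ d ∧ Q.natDegree ≤ d ∧
    (∀ j, |(P.coeff j : ℝ)| ≤ H) ∧ (∀ j, |(Q.coeff j : ℝ)| ≤ H) ∧ x = aeval θ P / aeval θ Q}

lemma FieldSet.mono {Θ : Set ℝ} {d d' : ℕ} {H H' : ℝ} (hd : d ≤ d') (hH : H ≤ H') :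
    FieldSet Θ d H ⊆ FieldSet Θ d' H' := by
  rintro x ⟨h1, θ, hθ, P, Q, h2, h3, h4, h5, h6⟩
  exact ⟨h1, θ, hθ, P, Q, h2.trans hd, h3.trans hd, fun j => (h4 j).trans hH,
    fun j => (h5 j).trans hH, h6⟩

lemma dio_set (Θ : Finset ℝ) (hΘ : ∀ θ ∈ Θ, MeasW θ) (d : ℕ) : ∃ D B : ℕ, ∃ C₁ : ℝ, 1 ≤ C₁ ∧
    ∀ H : ℝ, 1 ≤ H → ∀ x ∈ FieldSet (Θ : Set ℝ) d H, ∀ q : ℕ, 1 ≤ q → ∀ p : ℤ,
    1 ≤ C₁ * H ^ B * (q : ℝ) ^ D * |q * x - p| := by
  classical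
  have h1 : ∀ θ : ℝ, ∃ D B : ℕ, ∃ C₁ : ℝ, θ ∈ Θ → (1 ≤ C₁ ∧
    ∀ H : ℝ, 1 ≤ H → ∀ P Q : ℤ[X], P.natDegree ≤ d → Q.natDegree ≤ d → (∀ j, |(P.coeff j : ℝ)| ≤ H) →
    (∀ j, |(Q.coeff j : ℝ)| ≤ H) → Irrational (aeval θ P / aeval θ Q) → ∀ q : ℕ, 1 ≤ q → ∀ p : ℤ,
    1 ≤ C₁ * H ^ B * (q : ℝ) ^ D * |q * (aeval θ P / aeval θ Q) - p|) := by
    intro θ
    by_cases h : θ ∈ Θ
    · obtain ⟨D, B, C₁, h2⟩ := dio θ (hΘ θ h) d
      exact ⟨D, B, C₁, fun _ => h2⟩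
    · exact ⟨0, 0, 0, fun h' => absurd h' h⟩
  choose D B C₁ h1 using h1
  refine ⟨∑ θ ∈ Θ, D θ, ∑ θ ∈ Θ, B θ, 1 + ∑ θ ∈ Θ, C₁ θ, ?_, ?_⟩
  · have : 0 ≤ ∑ θ ∈ Θ, C₁ θ := sum_nonneg fun θ hθ => by linarith [(h1 θ hθ).1]
    linarith
  · rintro H hH x ⟨hirr, θ, hθ, P, Q, h2, h3, h4, h5, rfl⟩ q hq p
    have hθ' := Finset.mem_coe.1 hθ
    have h6 := (h1 θ hθ').2 H hH P Q h2 h3 h4 h5 hirr q hq p
    refine h6.trans ?_
    have hq1 : (1 : ℝ) ≤ q := by exact_mod_cast hq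
    have e1 : C₁ θ ≤ 1 + ∑ θ ∈ Θ, C₁ θ := by
      have := single_le_sum (f := C₁) (fun θ hθ => by linarith [(h1 θ hθ).1]) hθ'
      linarith
    have e2 : B θ ≤ ∑ θ ∈ Θ, B θ := single_le_sum (f := B) (fun _ _ => Nat.zero_le _) hθ'
    have e3 : D θ ≤ ∑ θ ∈ Θ, D θ := single_le_sum (f := D) (fun _ _ => Nat.zero_le _) hθ'
    have e4 : 0 ≤ C₁ θ := by linarith [(h1 θ hθ').1]
    have e5 : H ^ B θ ≤ H ^ (∑ θ ∈ Θ, B θ) := pow_le_pow_right₀ hH e2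
    have e6 : (q : ℝ) ^ D θ ≤ (q : ℝ) ^ (∑ θ ∈ Θ, D θ) := pow_le_pow_right₀ hq1 e3
    have hH0 : 0 < H := by linarith
    have e7 : 0 ≤ 1 + ∑ θ ∈ Θ, C₁ θ := by linarith
    apply mul_le_mul_of_nonneg_right _ (abs_nonneg _)
    apply mul_le_mul _ e6 (by positivity) (mul_nonneg e7 (by positivity))
    apply mul_le_mul e1 e5 (by positivity) e7

lemma count_set (Θ : Finset ℝ) (d : ℕ) (H : ℝ) (hH : 1 ≤ H) : ∃ T : Finset ℝ,
    FieldSet (Θ : Set ℝ) d H ⊆ (T : Set ℝ) ∧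
    (T.card : ℝ) ≤ ((Θ.card : ℝ) * 3 ^ (2 * (d + 1)) + 1) * H ^ (2 * (d + 1)) := by
  classical
  set Bx : Finset (Fin (d + 1) → ℤ) := Fintype.piFinset fun _ => Icc (-(⌊H⌋₊ : ℤ)) (⌊H⌋₊ : ℤ) with hBx
  let ev : ℝ → (Fin (d + 1) → ℤ) → ℝ := fun θ v => ∑ i : Fin (d + 1), (v i : ℝ) * θ ^ (i : ℕ)
  have hev : ∀ θ : ℝ, ∀ P : ℤ[X], P.natDegree ≤ d → (∀ j, |(P.coeff j : ℝ)| ≤ H) →
      ∃ v ∈ Bx, ev θ v = aeval θ P := by
    intro θ P hP hPH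
    refine ⟨fun i => P.coeff i, ?_, ?_⟩
    · rw [hBx, Fintype.mem_piFinset]
      intro i
      rw [mem_Icc]
      have h1 : |P.coeff i| ≤ (⌊H⌋₊ : ℤ) := by
        have h2 := hPH i
        have h3 : ((|P.coeff i| : ℤ) : ℝ) ≤ H := by push_cast; exact h2
        have h4 : |P.coeff i| ≤ ⌊H⌋ := Int.le_floor.2 h3
        rwa [← Int.natCast_floor_eq_floor (by linarith)] at h4
      exact abs_le.1 h1
    · rw [aeval_eq_sum_range' (by omega : P.natDegree < d + 1)]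
      simp only [ev]
      rw [Fin.sum_univ_eq_sum_range (fun i => (P.coeff i : ℝ) * θ ^ i)]
      refine sum_congr rfl fun j _ => ?_
      rw [zsmul_eq_mul]
  refine ⟨Θ.biUnion fun θ => (Bx ×ˢ Bx).image fun vw => ev θ vw.1 / ev θ vw.2, ?_, ?_⟩
  · rintro x ⟨_, θ, hθ, P, Q, h2, h3, h4, h5, rfl⟩
    rw [Finset.mem_coe, mem_biUnion]
    refine ⟨θ, hθ, ?_⟩
    obtain ⟨v, hv, hv2⟩ := hev θ P h2 h4
    obtain ⟨w, hw, hw2⟩ := hev θ Q h3 h5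
    rw [mem_image]
    exact ⟨(v, w), mem_product.2 ⟨hv, hw⟩, by simp only [hv2, hw2]⟩
  · have hcard : Bx.card = (2 * ⌊H⌋₊ + 1) ^ (d + 1) := by
      rw [hBx, Fintype.card_piFinset, prod_const, card_univ, Fintype.card_fin, Int.card_Icc]
      congr 1
      omega
    have h1 : (Θ.biUnion fun θ => (Bx ×ˢ Bx).image fun vw => ev θ vw.1 / ev θ vw.2).card ≤
        Θ.card * (Bx.card * Bx.card) := by
      apply card_biUnion_le_card_mul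
      intro θ _
      exact card_image_le.trans (by rw [card_product])
    rw [hcard, ← pow_add] at h1
    have h2 : ((Θ.biUnion fun θ => (Bx ×ˢ Bx).image fun vw => ev θ vw.1 / ev θ vw.2).card : ℝ) ≤
        Θ.card * (2 * (⌊H⌋₊ : ℝ) + 1) ^ (d + 1 + (d + 1)) := by exact_mod_cast h1
    refine h2.trans ?_
    have h3 : ((⌊H⌋₊ : ℕ) : ℝ) ≤ H := Nat.floor_le (by linarith)
    have h4 : (2 * (⌊H⌋₊ : ℝ) + 1) ^ (d + 1 + (d + 1)) ≤ 3 ^ (2 * (d + 1)) * H ^ (2 * (d + 1)) := by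
      rw [← mul_pow, ← two_mul]
      apply pow_le_pow_left₀ (by positivity)
      linarith
    have h5 : 0 ≤ H ^ (2 * (d + 1)) := by positivity
    calc (Θ.card : ℝ) * (2 * (⌊H⌋₊ : ℝ) + 1) ^ (d + 1 + (d + 1)) ≤
          Θ.card * (3 ^ (2 * (d + 1)) * H ^ (2 * (d + 1))) := by gcongr
      _ ≤ _ := by nlinarith

/-- **Main theorem** for fields generated by a number with a transcendence measure -/
theorem main_fields : ∃ κ : ℕ, 1 ≤ κ ∧ ∀ Θ : Finset ℝ, (∀ θ ∈ Θ, MeasW θ) →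
    (∀ d : ℕ, ∀ ε : ℝ, 0 < ε → ∃ c : ℝ, 0 < c ∧ ∃ N₀ : ℕ, ∀ N R : ℕ, N₀ ≤ N →
      (({r : ℕ | 1 ≤ r ∧ r ≤ R ∧ ∃ x ∈ FieldSet (Θ : Set ℝ) d (Real.exp (c * N)), ∃ n : ℕ, N ≤ n ∧
        (n : ℝ) ^ κ ≤ Real.log R ∧ ¬ Equi r n ε x}.ncard : ℕ) : ℝ) ≤ Real.exp (-(c * N)) * R) ∧
    (∀ g : ℕ → ℕ, Tendsto g atTop atTop → ∃ 𝓑 : Set ℕ,
      Tendsto (fun R : ℕ => (({r : ℕ | 1 ≤ r ∧ r ≤ R ∧ r ∈ 𝓑}.ncard : ℕ) : ℝ) / R) atTop (𝓝 1) ∧
      ∀ k : ℕ, ∀ x ∈ FieldSet (Θ : Set ℝ) k k, ∀ ε : ℝ, 0 < ε → ∀ᶠ r : ℕ in atTop, r ∈ 𝓑 →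
        ∀ n : ℕ, g r ≤ n → (n : ℝ) ^ κ ≤ Real.log r → Equi r n ε x) := by
  obtain ⟨κ, hκ, h⟩ := few_abs
  refine ⟨κ, hκ, fun Θ hΘ => ?_⟩
  have hfew : ∀ d : ℕ, ∀ ε : ℝ, 0 < ε → ∃ c : ℝ, 0 < c ∧ ∃ N₀ : ℕ, ∀ N R : ℕ, N₀ ≤ N →
      (({r : ℕ | 1 ≤ r ∧ r ≤ R ∧ ∃ x ∈ FieldSet (Θ : Set ℝ) d (Real.exp (c * N)), ∃ n : ℕ, N ≤ n ∧
        (n : ℝ) ^ κ ≤ Real.log R ∧ ¬ Equi r n ε x}.ncard : ℕ) : ℝ) ≤ Real.exp (-(c * N)) * R := by
    intro d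
    obtain ⟨D, B, C₁, hC₁, hdio⟩ := dio_set Θ hΘ d
    set C₂ : ℝ := C₁ + ((Θ.card : ℝ) * 3 ^ (2 * (d + 1)) + 1) with hC₂
    have hpos : (0 : ℝ) ≤ (Θ.card : ℝ) * 3 ^ (2 * (d + 1)) + 1 := by positivity
    refine h (FieldSet (Θ : Set ℝ) d) (D + 1) B (2 * (d + 1)) C₂ (by omega) (by linarith)
      (fun H H' hHH => FieldSet.mono le_rfl hHH) ?_ ?_
    · intro H hH x hx q hq p
      rw [Nat.add_sub_cancel]
      refine (hdio H hH x hx q hq p).trans ?_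
      have hH0 : 0 < H := by linarith
      gcongr
      linarith
    · intro H hH
      obtain ⟨T, hT1, hT2⟩ := count_set Θ d H hH
      refine ⟨T, hT1, hT2.trans ?_⟩
      have hH0 : 0 < H := by linarith
      gcongr
      linarith
  refine ⟨hfew, ?_⟩
  intro g hg
  refine diag κ (fun k => FieldSet (Θ : Set ℝ) k k)
    (fun k l hkl => FieldSet.mono hkl (by exact_mod_cast hkl)) ?_ g hg
  intro k ε hε T hT
  have hT0 : (0 : ℝ) < T := by exact_mod_cast hT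
  obtain ⟨c, hc, N₀, hN₀⟩ := hfew k ε hε
  obtain ⟨N, hNN, hN2, hN3⟩ : ∃ N : ℕ, N₀ ≤ N ∧ (k : ℝ) ≤ Real.exp (c * N) ∧
      Real.exp (-(c * N)) ≤ 1 / (2 * T) := by
    have ht : Tendsto (fun N : ℕ => Real.exp (c * N)) atTop atTop :=
      Real.tendsto_exp_atTop.comp (tendsto_natCast_atTop_atTop.const_mul_atTop hc)
    have e1 := ht.eventually_ge_atTop (k : ℝ)
    have e2 := ht.eventually_ge_atTop (2 * T : ℝ)
    obtain ⟨N, h1, h2, h3⟩ := ((eventually_ge_atTop N₀).and (e1.and e2)).exists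
    refine ⟨N, h1, h2, ?_⟩
    rw [Real.exp_neg, inv_eq_one_div]
    exact one_div_le_one_div_of_le (by positivity) h3
  refine ⟨N, fun R => ?_⟩
  have h1 := hN₀ N R hNN
  have hsub : {r : ℕ | 1 ≤ r ∧ r ≤ R ∧ ∃ x ∈ FieldSet (Θ : Set ℝ) k k, ∃ n : ℕ, N ≤ n ∧
      (n : ℝ) ^ κ ≤ Real.log R ∧ ¬ Equi r n ε x} ⊆ {r : ℕ | 1 ≤ r ∧ r ≤ R ∧
      ∃ x ∈ FieldSet (Θ : Set ℝ) k (Real.exp (c * N)), ∃ n : ℕ, N ≤ n ∧
      (n : ℝ) ^ κ ≤ Real.log R ∧ ¬ Equi r n ε x} := by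
    rintro r ⟨a, b, x, hx, rest⟩
    exact ⟨a, b, x, FieldSet.mono le_rfl hN2 hx, rest⟩
  have h2 := Set.ncard_le_ncard hsub ((Set.finite_Icc 1 R).subset fun _ h => ⟨h.1, h.2.1⟩)
  have h3 : (({r : ℕ | 1 ≤ r ∧ r ≤ R ∧ ∃ x ∈ FieldSet (Θ : Set ℝ) k k, ∃ n : ℕ, N ≤ n ∧
      (n : ℝ) ^ κ ≤ Real.log R ∧ ¬ Equi r n ε x}.ncard : ℕ) : ℝ) ≤ Real.exp (-(c * N)) * R :=
    le_trans (by exact_mod_cast h2) h1
  refine h3.trans ?_
  gcongr

end Pool.Agent.Helper478.Bases
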