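import Pool.Agent.Helper478_Bases.BdAbs
import Pool.Agent.Helper478_Bases.Diag

/-!
# Almost all bases: families of numbers of finite irrationality exponent
-/

set_option autoImplicit false

namespace Pool.Agent.Helper478.Bases

open Finset Polynomial Filter Topology
open Pool.Agent.H469R2.NK (e norm_e e_add e_zero conj_e)

/-- the exceptional bases are few -/
theorem few_abs : ∃ κ : ℕ, 1 ≤ κ ∧ ∀ (F : ℝ → Set ℝ) (d B D₁ : ℕ) (C₁ : ℝ), 1 ≤ d → 1 ≤ C₁ → Monotone F →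
    (∀ H : ℝ, 1 ≤ H → ∀ x ∈ F H, ∀ q : ℕ, 1 ≤ q → ∀ p : ℤ,
      1 ≤ C₁ * H ^ B * (q : ℝ) ^ (d - 1) * |q * x - p|) →
    (∀ H : ℝ, 1 ≤ H → ∃ T : Finset ℝ, F H ⊆ (T : Set ℝ) ∧ (T.card : ℝ) ≤ C₁ * H ^ D₁) →
    ∀ ε : ℝ, 0 < ε → ∃ c : ℝ, 0 < c ∧ ∃ N₀ : ℕ, ∀ N R : ℕ, N₀ ≤ N →
    (({r : ℕ | 1 ≤ r ∧ r ≤ R ∧ ∃ x ∈ F (Real.exp (c * N)), ∃ n : ℕ, N ≤ n ∧
      (n : ℝ) ^ κ ≤ Real.log R ∧ ¬ Equi r n ε x}.ncard : ℕ) : ℝ) ≤ Real.exp (-(c * N)) * R := by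
  classical
  obtain ⟨κ, hκ, hW⟩ := weylBd_abs
  refine ⟨κ, hκ, ?_⟩
  intro F d B D₁ C₁ hd hC₁ hF hdio hcnt ε' hε'
  set ε : ℝ := min ε' 1 with hε
  have hε0 : 0 < ε := lt_min hε' one_pos
  have hε1 : ε ≤ 1 := min_le_right _ _
  have hεε' : ε ≤ ε' := min_le_left _ _
  obtain ⟨K, hK1, hK64⟩ : ∃ K : ℕ, 1 ≤ K ∧ 64 ≤ ε ^ 2 * K := by
    refine ⟨⌈64 / ε ^ 2⌉₊ + 1, by omega, ?_⟩
    have h1 := Nat.le_ceil (64 / ε ^ 2)
    rw [div_le_iff₀ (by positivity)] at h1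
    push_cast
    have h2 : 0 < ε ^ 2 := by positivity
    nlinarith
  have hK0 : (1 : ℝ) ≤ K := by exact_mod_cast hK1
  obtain ⟨n₀, hn₀⟩ := hW d K (B + 1) hd hK1
  set η : ℝ := ε / (16 * K) with hη
  have hη0 : 0 < η := by positivity
  have hη1 : η ≤ 1 := by
    rw [hη, div_le_one (by positivity)]
    linarith
  have hηK : 2 * η * K ≤ ε / 8 := by
    rw [hη]
    apply le_of_eq
    field_simp
    norm_num
  set c : ℝ := η ^ 2 / (16 * (D₁ + 2)) with hc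
  have hc0 : 0 < c := by positivity
  have hc1 : c ≤ 1 := by
    rw [hc, div_le_one (by positivity)]
    have : η ^ 2 ≤ 1 := by nlinarith
    linarith
  set q : ℝ := Real.exp (-(η ^ 2 / 8)) with hq
  have hq0 : 0 < q := Real.exp_pos _
  have hq1 : q < 1 := by
    rw [hq, Real.exp_lt_one_iff]
    have : 0 < η ^ 2 / 8 := by positivity
    linarith
  set Q : ℝ := C₁ * K * 8 / (1 - q) with hQ
  have h1q : 0 < 1 - q := by linarith
  have hQ0 : 0 < Q := by positivity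
  refine ⟨c, hc0, max (max n₀ (⌈C₁⌉₊ + 1)) ⌈16 * Q / η ^ 2⌉₊, ?_⟩
  intro N R hN
  have hN0 : ⌈C₁⌉₊ + 1 ≤ N := le_trans (le_max_right n₀ _) (le_trans (le_max_left _ _) hN)
  have hN1 : 1 ≤ N := by omega
  have hN1' : C₁ ≤ N := (Nat.le_ceil C₁).trans (by exact_mod_cast (by omega : ⌈C₁⌉₊ ≤ N))
  have hN2 : n₀ ≤ N := le_trans (le_max_left n₀ _) (le_trans (le_max_left _ _) hN)
  have hN3 : ⌈16 * Q / η ^ 2⌉₊ ≤ N := le_trans (le_max_right _ _) hN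
  have hN4 : 16 * Q / η ^ 2 ≤ N := (Nat.le_ceil _).trans (by exact_mod_cast hN3)
  obtain ⟨T, hT1, hT2⟩ := hcnt (Real.exp (c * N)) (Real.one_le_exp (by positivity))
  set T' : Finset ℝ := T.filter fun x => x ∈ F (Real.exp (c * N)) with hT'
  set I : Finset ℕ := (Ico N (⌊Real.log R⌋₊ + 1)).filter fun n => (n : ℝ) ^ κ ≤ Real.log R with hI
  let Bad : ℝ → ℕ → ℕ → Finset ℕ := fun x k n =>
    (Ioc 0 R).filter fun r : ℕ => 2 * η * n < ‖∑ i ∈ Icc 1 n, e (((k : ℝ) * x) * (r : ℝ) ^ i)‖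
  have hbad : ∀ x ∈ T', ∀ k ∈ Icc 1 K, ∀ n ∈ I, ((Bad x k n).card : ℝ) ≤ 8 * R * q ^ n := by
    intro x hx k hk n hn
    rw [hT', mem_filter] at hx
    rw [hI, mem_filter, mem_Ico] at hn
    rw [mem_Icc] at hk
    have hx' : ∀ q : ℕ, 1 ≤ q → ∀ p : ℤ,
        1 ≤ Real.exp ((B + 1 : ℕ) * n) * (q : ℝ) ^ (d - 1) * |q * x - p| := by
      intro q hq p
      refine (hdio _ (Real.one_le_exp (by positivity)) x hx.2 q hq p).trans ?_
      apply mul_le_mul_of_nonneg_right _ (abs_nonneg _)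
      apply mul_le_mul_of_nonneg_right _ (by positivity)
      have hNn : (N : ℝ) ≤ n := by exact_mod_cast hn.1.1
      have e1 : C₁ ≤ Real.exp n := by
        have := Real.add_one_le_exp (n : ℝ); linarith
      have e2 : Real.exp (c * N) ≤ Real.exp n := by
        rw [Real.exp_le_exp]; nlinarith
      calc C₁ * Real.exp (c * N) ^ B ≤ Real.exp n * Real.exp n ^ B := by gcongr
        _ = Real.exp ((B + 1 : ℕ) * n) := by
            rw [← pow_succ', ← Real.exp_nat_mul]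
    obtain ⟨W, hW0, hWb, hW2⟩ := hn₀ n R (hN2.trans hn.1.1) hn.2 x hx' k hk.1 hk.2
    have hne : (k : ℝ) * x ≠ 0 := by
      apply mul_ne_zero
      · exact_mod_cast (by omega : k ≠ 0)
      · rintro rfl
        have := hx' 1 le_rfl 0
        simp at this
        linarith
    have h1 := dev ((k : ℝ) * x) η hη0 hη1 hne n R W hWb hW0 n le_rfl
    refine h1.trans ?_
    have h2 : Real.exp (-(η ^ 2 * n / 8)) = q ^ n := by
      rw [hq, ← Real.exp_nat_mul]; congr 1; ring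
    rw [h2]
    have h3 : 0 < q ^ n := by positivity
    nlinarith
  have hsub : {r : ℕ | 1 ≤ r ∧ r ≤ R ∧ ∃ x ∈ F (Real.exp (c * N)), ∃ n : ℕ, N ≤ n ∧
      (n : ℝ) ^ κ ≤ Real.log R ∧ ¬ Equi r n ε' x} ⊆
      ((T'.biUnion fun x => (Icc 1 K).biUnion fun k => I.biUnion fun n => Bad x k n : Finset ℕ) : Set ℕ) := by
    rintro r ⟨hr1, hr2, x, hx, n, hn1, hn2, hne⟩
    rw [Finset.mem_coe, mem_biUnion]
    refine ⟨x, ?_, ?_⟩
    · rw [hT', mem_filter]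
      exact ⟨Finset.mem_coe.1 (hT1 hx), hx⟩
    · rw [mem_biUnion]
      by_contra hcon
      push Not at hcon
      apply hne
      refine (equi_of r n K x ε η hK1 hε0 hε1 hη0.le hK64 hηK ?_).mono hεε'
      intro k hk
      by_contra hk2
      push Not at hk2
      apply hcon k hk
      rw [mem_biUnion]
      refine ⟨n, ?_, ?_⟩
      · rw [hI, mem_filter, mem_Ico]
        refine ⟨⟨hn1, ?_⟩, hn2⟩
        rw [Nat.lt_succ_iff]
        apply Nat.le_floor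
        have hn1' : (1 : ℝ) ≤ n := by exact_mod_cast hN1.trans hn1
        calc (n : ℝ) = (n : ℝ) ^ 1 := (pow_one _).symm
          _ ≤ (n : ℝ) ^ κ := pow_le_pow_right₀ hn1' hκ
          _ ≤ _ := hn2
      · simp only [Bad, mem_filter, mem_Ioc]
        exact ⟨⟨by omega, hr2⟩, hk2⟩
  have hcard : (({r : ℕ | 1 ≤ r ∧ r ≤ R ∧ ∃ x ∈ F (Real.exp (c * N)), ∃ n : ℕ, N ≤ n ∧
      (n : ℝ) ^ κ ≤ Real.log R ∧ ¬ Equi r n ε' x}.ncard : ℕ) : ℝ) ≤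
      ∑ x ∈ T', ∑ k ∈ Icc 1 K, ∑ n ∈ I, 8 * R * q ^ n := by
    have h1 := Set.ncard_le_ncard hsub (Finset.finite_toSet _)
    rw [Set.ncard_coe_finset] at h1
    have h2 : ((T'.biUnion fun x => (Icc 1 K).biUnion fun k => I.biUnion fun n => Bad x k n).card : ℝ) ≤
        ∑ x ∈ T', ∑ k ∈ Icc 1 K, ∑ n ∈ I, ((Bad x k n).card : ℝ) := by
      have h3 : (T'.biUnion fun x => (Icc 1 K).biUnion fun k => I.biUnion fun n => Bad x k n).card ≤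
          ∑ x ∈ T', ∑ k ∈ Icc 1 K, ∑ n ∈ I, (Bad x k n).card :=
        card_biUnion_le.trans (sum_le_sum fun x _ => card_biUnion_le.trans
          (sum_le_sum fun k _ => card_biUnion_le))
      exact_mod_cast h3
    calc _ ≤ ((T'.biUnion fun x => (Icc 1 K).biUnion fun k => I.biUnion fun n => Bad x k n).card : ℝ) := by
          exact_mod_cast h1
      _ ≤ _ := h2
      _ ≤ _ := sum_le_sum fun x hx => sum_le_sum fun k hk => sum_le_sum fun n hn => hbad x hx k hk n hn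
  refine hcard.trans ?_
  rw [sum_const, sum_const, Nat.card_Icc, Nat.add_sub_cancel, ← mul_sum]
  have h1 : ∑ n ∈ I, q ^ n ≤ q ^ N / (1 - q) :=
    (sum_le_sum_of_subset_of_nonneg (filter_subset _ _) fun n _ _ => by positivity).trans
      (geom_tail q hq0 hq1 _ _)
  have h2 : (T'.card : ℝ) ≤ C₁ * Real.exp (c * N * (D₁ + 1)) := by
    have h3 : (T'.card : ℝ) ≤ T.card := by exact_mod_cast card_filter_le _ _
    refine h3.trans (hT2.trans ?_)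
    have h4 : 1 ≤ Real.exp (c * N) := Real.one_le_exp (by positivity)
    have h5 : Real.exp (c * N * (D₁ + 1)) = Real.exp (c * N) ^ (D₁ + 1) := by
      rw [← Real.exp_nat_mul]; congr 1; push_cast; ring
    rw [h5]
    gcongr
    omega
  rw [nsmul_eq_mul, nsmul_eq_mul]
  have h3 : q ^ N = Real.exp (-(η ^ 2 / 8 * N)) := by
    rw [hq, ← Real.exp_nat_mul]; congr 1; ring
  have h4 : Q ≤ Real.exp (η ^ 2 / 16 * N) := by
    have h5 := Real.add_one_le_exp (η ^ 2 / 16 * N)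
    rw [div_le_iff₀ (by positivity)] at hN4
    nlinarith
  calc (T'.card : ℝ) * (K * (8 * R * ∑ n ∈ I, q ^ n)) ≤
        (C₁ * Real.exp (c * N * (D₁ + 1))) * (K * (8 * R * (q ^ N / (1 - q)))) := by gcongr
    _ = Q * (Real.exp (c * N * (D₁ + 1)) * q ^ N) * R := by rw [hQ]; field_simp
    _ ≤ Real.exp (η ^ 2 / 16 * N) * (Real.exp (c * N * (D₁ + 1)) * q ^ N) * R := by gcongr
    _ = Real.exp (-(c * N)) * R := by
        rw [h3, ← Real.exp_add, ← Real.exp_add]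
        congr 2
        have h6 : c * (D₁ + 2) = η ^ 2 / 16 := by rw [hc]; field_simp
        have h7 : c * (N : ℝ) * (D₁ + 1) = c * (D₁ + 2) * N - c * N := by ring
        rw [h7, h6]
        ring


/-- the diagonal argument -/
theorem diag (κ : ℕ) (X : ℕ → Set ℝ) (hX : ∀ k l, k ≤ l → X k ⊆ X l)
    (hfew : ∀ k : ℕ, ∀ ε : ℝ, 0 < ε → ∀ T : ℕ, 1 ≤ T → ∃ N : ℕ, ∀ R : ℕ,
      (({r : ℕ | 1 ≤ r ∧ r ≤ R ∧ ∃ x ∈ X k, ∃ n : ℕ, N ≤ n ∧ (n : ℝ) ^ κ ≤ Real.log R ∧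
        ¬ Equi r n ε x}.ncard : ℕ) : ℝ) ≤ 1 / (2 * T) * R)
    (g : ℕ → ℕ) (hg : Tendsto g atTop atTop) : ∃ 𝓑 : Set ℕ,
      Tendsto (fun R : ℕ => (({r : ℕ | 1 ≤ r ∧ r ≤ R ∧ r ∈ 𝓑}.ncard : ℕ) : ℝ) / R) atTop (𝓝 1) ∧
      ∀ k : ℕ, ∀ x ∈ X k, ∀ ε : ℝ, 0 < ε → ∀ᶠ r : ℕ in atTop, r ∈ 𝓑 →
        ∀ n : ℕ, g r ≤ n → (n : ℝ) ^ κ ≤ Real.log r → Equi r n ε x := by
  classical
  let B : ℕ → Set ℕ := fun k => {r | ∃ x ∈ X k, ∃ n : ℕ, g r ≤ n ∧ (n : ℝ) ^ κ ≤ Real.log r ∧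
    ¬ Equi r n (1 / (k + 1)) x}
  have hmono : ∀ k l, k ≤ l → B k ⊆ B l := by
    rintro k l hkl r ⟨x, hx, n, h1, h2, h3⟩
    refine ⟨x, hX k l hkl hx, n, h1, h2, fun h4 => h3 (h4.mono ?_)⟩
    apply one_div_le_one_div_of_le (by positivity)
    have : (k : ℝ) ≤ l := by exact_mod_cast hkl
    linarith
  have h0 : ∀ k T : ℕ, 1 ≤ T → ∃ R₀ : ℕ, ∀ R : ℕ, R₀ ≤ R → T * cnt (B k) R ≤ R := by
    intro k T hT
    have hT0 : (0 : ℝ) < T := by exact_mod_cast hT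
    obtain ⟨N, hN₀⟩ := hfew k (1 / (k + 1)) (by positivity) T hT
    obtain ⟨r₀, hr₀⟩ := eventually_atTop.1 (hg.eventually_ge_atTop N)
    refine ⟨2 * T * (r₀ + 1), fun R hR => ?_⟩
    have hsub : {r : ℕ | 1 ≤ r ∧ r ≤ R ∧ r ∈ B k} ⊆ (Icc 1 r₀ : Finset ℕ) ∪
        {r : ℕ | 1 ≤ r ∧ r ≤ R ∧ ∃ x ∈ X k, ∃ n : ℕ, N ≤ n ∧
        (n : ℝ) ^ κ ≤ Real.log R ∧ ¬ Equi r n (1 / (k + 1)) x} := by
      rintro r ⟨h1, h2, x, hx, n, h3, h4, h5⟩
      rcases Nat.lt_or_ge r r₀ with h6 | h6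
      · left
        rw [Finset.mem_coe, mem_Icc]
        exact ⟨h1, h6.le⟩
      · right
        refine ⟨h1, h2, x, hx, n, (hr₀ r h6).trans h3, h4.trans ?_, h5⟩
        apply Real.log_le_log (by exact_mod_cast h1)
        exact_mod_cast h2
    have hfin : {r : ℕ | 1 ≤ r ∧ r ≤ R ∧ ∃ x ∈ X k, ∃ n : ℕ, N ≤ n ∧
        (n : ℝ) ^ κ ≤ Real.log R ∧ ¬ Equi r n (1 / (k + 1)) x}.Finite :=
      (Set.finite_Icc 1 R).subset fun _ h => ⟨h.1, h.2.1⟩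
    have h1 : (cnt (B k) R : ℝ) ≤ r₀ + 1 / (2 * T) * R := by
      have h2 : cnt (B k) R ≤ (Icc 1 r₀ : Finset ℕ).card +
          {r : ℕ | 1 ≤ r ∧ r ≤ R ∧ ∃ x ∈ X k, ∃ n : ℕ, N ≤ n ∧
          (n : ℝ) ^ κ ≤ Real.log R ∧ ¬ Equi r n (1 / (k + 1)) x}.ncard := by
        rw [← Set.ncard_coe_finset]
        exact (Set.ncard_le_ncard hsub ((Finset.finite_toSet _).union hfin)).trans (Set.ncard_union_le _ _)
      rw [Nat.card_Icc, Nat.add_sub_cancel] at h2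
      have h3 := hN₀ R
      have h4 : (cnt (B k) R : ℝ) ≤ r₀ +
          (({r : ℕ | 1 ≤ r ∧ r ≤ R ∧ ∃ x ∈ X k, ∃ n : ℕ, N ≤ n ∧
          (n : ℝ) ^ κ ≤ Real.log R ∧ ¬ Equi r n (1 / (k + 1)) x}.ncard : ℕ) : ℝ) := by
        exact_mod_cast h2
      linarith
    have h2 : (T : ℝ) * cnt (B k) R ≤ R := by
      have h3 : (2 * T * (r₀ + 1) : ℝ) ≤ R := by exact_mod_cast hR
      have h4 : (T : ℝ) * (1 / (2 * T) * R) ≤ R / 2 := by
        apply le_of_eq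
        field_simp
      have h5 : (T : ℝ) * r₀ ≤ R / 2 := by nlinarith
      calc (T : ℝ) * cnt (B k) R ≤ T * (r₀ + 1 / (2 * T) * R) := by gcongr
        _ ≤ R := by linarith
    exact_mod_cast h2
  obtain ⟨Z, hZ1, hZ2⟩ := pideal B hmono h0
  refine ⟨Zᶜ, ?_, ?_⟩
  · rw [Metric.tendsto_atTop]
    intro δ hδ
    obtain ⟨T, hT⟩ := exists_nat_gt (1 / δ)
    have hT0 : (0 : ℝ) < T := lt_trans (by positivity) hT
    have hT1 : 1 ≤ T := by exact_mod_cast hT0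
    obtain ⟨R₀, hR₀⟩ := hZ1 T hT1
    refine ⟨max R₀ 1, fun R hR => ?_⟩
    have hR1 : 1 ≤ R := (le_max_right _ _).trans hR
    have hR0 : (0 : ℝ) < R := by exact_mod_cast hR1
    have h1 := hR₀ R ((le_max_left _ _).trans hR)
    have h2 : {r : ℕ | 1 ≤ r ∧ r ≤ R ∧ r ∈ Zᶜ}.ncard + cnt Z R = R := by
      have hdis : Disjoint {r : ℕ | 1 ≤ r ∧ r ≤ R ∧ r ∈ Zᶜ} {r : ℕ | 1 ≤ r ∧ r ≤ R ∧ r ∈ Z} := by
        rw [Set.disjoint_left]
        rintro r ⟨_, _, h3⟩ ⟨_, _, h4⟩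
        exact h3 h4
      rw [cnt, ← Set.ncard_union_eq hdis (cnt_fin _ _) (cnt_fin _ _)]
      have : {r : ℕ | 1 ≤ r ∧ r ≤ R ∧ r ∈ Zᶜ} ∪ {r : ℕ | 1 ≤ r ∧ r ≤ R ∧ r ∈ Z} =
          ((Icc 1 R : Finset ℕ) : Set ℕ) := by
        ext r
        simp only [Set.mem_union, Set.mem_ofPred_eq, Set.mem_compl_iff, Finset.coe_Icc, Set.mem_Icc]
        tauto
      rw [this, Set.ncard_coe_finset, Nat.card_Icc]
      omega
    have h3 : (({r : ℕ | 1 ≤ r ∧ r ≤ R ∧ r ∈ Zᶜ}.ncard : ℕ) : ℝ) = R - cnt Z R := by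
      have : (({r : ℕ | 1 ≤ r ∧ r ≤ R ∧ r ∈ Zᶜ}.ncard : ℕ) : ℝ) + cnt Z R = R := by exact_mod_cast h2
      linarith
    have h4 : (T : ℝ) * cnt Z R ≤ R := by exact_mod_cast h1
    rw [h3, Real.dist_eq]
    have h5 : ((R : ℝ) - cnt Z R) / R - 1 = -(cnt Z R / R) := by field_simp; ring
    rw [h5, abs_neg, abs_of_nonneg (by positivity)]
    have h6 : (cnt Z R : ℝ) / R ≤ 1 / T := by
      rw [div_le_div_iff₀ hR0 hT0]; linarith
    refine h6.trans_lt ?_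
    rw [div_lt_iff₀ hT0]
    rw [div_lt_iff₀ hδ] at hT
    linarith
  · intro k₀ x hx ε hε
    obtain ⟨k₁, hk₁⟩ := exists_nat_gt (1 / ε)
    set k := max k₀ k₁ with hk
    obtain ⟨r₀, hr₀⟩ := hZ2 k
    filter_upwards [eventually_ge_atTop r₀] with r hr hrZ n hn1 hn2
    by_contra hcon
    apply hrZ
    apply hr₀ r hr
    refine ⟨x, hX k₀ k (le_max_left _ _) hx, n, hn1, hn2, fun h4 => hcon (h4.mono ?_)⟩
    have h5 : (k₁ : ℝ) ≤ k := by exact_mod_cast le_max_right _ _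
    rw [div_le_iff₀ (by positivity)]
    rw [div_lt_iff₀ hε] at hk₁
    nlinarith

end Pool.Agent.Helper478.Bases
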