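import Pool.Agent.Helper478_Bases.Poly
import Pool.Agent.R485.Trans.Saw

/-!
# Large deviations for the sequences `x r ^ i`, `r` varying
-/

set_option autoImplicit false

namespace Pool.Agent.Helper478.Bases

open Finset Polynomial
open Pool.Agent.H469R2.NK (e norm_e e_add e_zero conj_e)

/-- the relevant Weyl sums are at most `W` -/
def WeylBd (α : ℝ) (N R : ℕ) (W : ℝ) : Prop :=
  ∀ P : ℝ[X], 1 ≤ P.natDegree → P.natDegree ≤ N → (P.leadingCoeff = α ∨ P.leadingCoeff = -α) →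
    ‖∑ r ∈ Ioc 0 R, e (P.eval (r : ℝ))‖ ≤ W

/-- the products -/
noncomputable def GG (lam α φ : ℝ) (n r : ℕ) : ℝ :=
  ∏ i ∈ Icc 1 n, (1 + lam * Real.cos (2 * Real.pi * (α * (r : ℝ) ^ i + φ)))

lemma GG_zero (lam α φ : ℝ) (r : ℕ) : GG lam α φ 0 r = 1 := by simp [GG]

lemma GG_succ (lam α φ : ℝ) (n r : ℕ) : GG lam α φ (n + 1) r =
    GG lam α φ n r * (1 + lam * Real.cos (2 * Real.pi * (α * (r : ℝ) ^ (n + 1) + φ))) := by
  rw [GG, prod_Icc_succ_top (by omega), ← GG]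

lemma cos_eq (t : ℝ) : ((Real.cos (2 * Real.pi * t) : ℝ) : ℂ) = (e t + e (-t)) / 2 := by
  rw [Complex.ofReal_cos, Complex.cos]
  unfold Pool.Agent.H469R2.NK.e
  congr 3
  all_goals
    push_cast
    ring_nf

/-- the phase -/
noncomputable def QQ (α φ : ℝ) (n : ℕ) : ℝ[X] := C α * X ^ n + C φ

lemma QQ_eval (α φ : ℝ) (n r : ℕ) : (QQ α φ n).eval (r : ℝ) = α * (r : ℝ) ^ n + φ := by
  simp [QQ]

lemma QQ_natDegree (α φ : ℝ) (n : ℕ) (hα : α ≠ 0) (_hn : 1 ≤ n) : (QQ α φ n).natDegree = n := by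
  rw [QQ, natDegree_add_C, natDegree_C_mul_X_pow _ _ hα]

lemma QQ_natDegree_le (α φ : ℝ) (n : ℕ) : (QQ α φ n).natDegree ≤ n := by
  rw [QQ, natDegree_add_C]
  exact natDegree_C_mul_X_pow_le _ _

lemma QQ_leadingCoeff (α φ : ℝ) (n : ℕ) (hα : α ≠ 0) (hn : 1 ≤ n) : (QQ α φ n).leadingCoeff = α := by
  rw [leadingCoeff, QQ_natDegree α φ n hα hn, QQ]
  simp only [coeff_add, coeff_C_mul, coeff_X_pow, if_true, mul_one, coeff_C]
  rw [if_neg (by omega), add_zero]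

lemma lc_add (P Q : ℝ[X]) (h : Q.natDegree < P.natDegree) :
    (P + Q).natDegree = P.natDegree ∧ (P + Q).leadingCoeff = P.leadingCoeff := by
  have h1 : Q.degree < P.degree := degree_lt_degree h
  refine ⟨natDegree_add_eq_left_of_natDegree_lt h, ?_⟩
  exact leadingCoeff_add_of_degree_lt' h1

lemma step (lam α φ : ℝ) (n r : ℕ) (P : ℝ[X]) :
    ((GG lam α φ (n + 1) r : ℝ) : ℂ) * e (P.eval (r : ℝ)) =
      ((GG lam α φ n r : ℝ) : ℂ) * e (P.eval (r : ℝ)) +
      (lam / 2 : ℝ) * (((GG lam α φ n r : ℝ) : ℂ) * e ((P + QQ α φ (n + 1)).eval (r : ℝ))) +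
      (lam / 2 : ℝ) * (((GG lam α φ n r : ℝ) : ℂ) * e ((P + -QQ α φ (n + 1)).eval (r : ℝ))) := by
  have h1 : e ((P + QQ α φ (n + 1)).eval (r : ℝ)) =
      e (P.eval (r : ℝ)) * e (α * (r : ℝ) ^ (n + 1) + φ) := by
    rw [eval_add, QQ_eval, e_add (P.eval (r : ℝ))]
  have h2 : e ((P + -QQ α φ (n + 1)).eval (r : ℝ)) =
      e (P.eval (r : ℝ)) * e (-(α * (r : ℝ) ^ (n + 1) + φ)) := by
    rw [eval_add, eval_neg, QQ_eval, e_add (P.eval (r : ℝ))]
  rw [GG_succ, h1, h2, Complex.ofReal_mul, Complex.ofReal_add, Complex.ofReal_mul, Complex.ofReal_one,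
    cos_eq]
  push_cast
  ring

lemma twisted (lam α φ : ℝ) (h0 : 0 ≤ lam) (N R : ℕ) (W : ℝ) (hW : WeylBd α N R W) : ∀ n : ℕ,
    ∀ P : ℝ[X], n < P.natDegree → P.natDegree ≤ N → (P.leadingCoeff = α ∨ P.leadingCoeff = -α) →
    ‖∑ r ∈ Ioc 0 R, ((GG lam α φ n r : ℝ) : ℂ) * e (P.eval (r : ℝ))‖ ≤ (1 + lam) ^ n * W := by
  intro n
  induction n with
  | zero =>
    intro P h1 h2 h3
    simp only [GG_zero, Complex.ofReal_one, one_mul, pow_zero]
    exact hW P h1 h2 h3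
  | succ n ih =>
    intro P h1 h2 h3
    simp_rw [step]
    rw [sum_add_distrib, sum_add_distrib, ← mul_sum, ← mul_sum]
    have hq : (QQ α φ (n + 1)).natDegree < P.natDegree := (QQ_natDegree_le _ _ _).trans_lt h1
    have hq' : (-QQ α φ (n + 1)).natDegree < P.natDegree := by rw [natDegree_neg]; exact hq
    obtain ⟨a1, a2⟩ := lc_add P _ hq
    obtain ⟨b1, b2⟩ := lc_add P _ hq'
    have e1 := ih P (by omega) h2 h3
    have e2 := ih (P + QQ α φ (n + 1)) (by omega) (by omega) (by rw [a2]; exact h3)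
    have e3 := ih (P + -QQ α φ (n + 1)) (by omega) (by omega) (by rw [b2]; exact h3)
    have hl : ‖((lam / 2 : ℝ) : ℂ)‖ = lam / 2 := by
      rw [Complex.norm_real, Real.norm_eq_abs, abs_of_nonneg (by positivity)]
    refine (norm_add_le _ _).trans ?_
    refine (add_le_add (norm_add_le _ _) le_rfl).trans ?_
    rw [norm_mul, norm_mul, hl]
    have e4 := mul_le_mul_of_nonneg_left e2 (by positivity : 0 ≤ lam / 2)
    have e5 := mul_le_mul_of_nonneg_left e3 (by positivity : 0 ≤ lam / 2)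
    rw [pow_succ]
    linarith

lemma GG_nonneg (lam α φ : ℝ) (h0 : 0 ≤ lam) (h1 : lam ≤ 1) (n r : ℕ) : 0 ≤ GG lam α φ n r := by
  rw [GG]
  refine prod_nonneg fun i _ => ?_
  have := Real.neg_one_le_cos (2 * Real.pi * (α * (r : ℝ) ^ i + φ))
  nlinarith

lemma mean (lam α φ : ℝ) (h0 : 0 ≤ lam) (hα : α ≠ 0) (N R : ℕ) (W : ℝ) (hW : WeylBd α N R W) :
    ∀ n : ℕ, n ≤ N → ∑ r ∈ Ioc 0 R, GG lam α φ n r ≤ R + ((1 + lam) ^ n - 1) * W := by
  intro n
  induction n with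
  | zero =>
    intro _
    simp [GG_zero]
  | succ n ih =>
    intro hn
    have h1 := ih (by omega)
    have h2 : ∀ r : ℕ, GG lam α φ (n + 1) r = GG lam α φ n r +
        ((lam / 2 : ℝ) * (((GG lam α φ n r : ℝ) : ℂ) * e ((QQ α φ (n + 1)).eval (r : ℝ))) +
        (lam / 2 : ℝ) * (((GG lam α φ n r : ℝ) : ℂ) * e ((-QQ α φ (n + 1)).eval (r : ℝ)))).re := by
      intro r
      have h3 := step lam α φ n r 0
      simp only [eval_zero, e_zero, mul_one, zero_add] at h3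
      have h4 := congrArg Complex.re h3
      rw [Complex.ofReal_re, add_assoc, Complex.add_re, Complex.ofReal_re] at h4
      exact h4
    simp_rw [h2]
    rw [sum_add_distrib, ← Complex.re_sum, sum_add_distrib, ← mul_sum, ← mul_sum]
    have hl : ‖((lam / 2 : ℝ) : ℂ)‖ = lam / 2 := by
      rw [Complex.norm_real, Real.norm_eq_abs, abs_of_nonneg (by positivity)]
    have e2 := twisted lam α φ h0 N R W hW n (QQ α φ (n + 1))
      (by rw [QQ_natDegree α φ _ hα (by omega)]; omega)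
      (by rw [QQ_natDegree α φ _ hα (by omega)]; omega)
      (Or.inl (QQ_leadingCoeff α φ _ hα (by omega)))
    have e3 := twisted lam α φ h0 N R W hW n (-QQ α φ (n + 1))
      (by rw [natDegree_neg, QQ_natDegree α φ _ hα (by omega)]; omega)
      (by rw [natDegree_neg, QQ_natDegree α φ _ hα (by omega)]; omega)
      (Or.inr (by rw [leadingCoeff_neg, QQ_leadingCoeff α φ _ hα (by omega)]))
    have e4 : ((lam / 2 : ℝ) * (∑ r ∈ Ioc 0 R, ((GG lam α φ n r : ℝ) : ℂ) *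
          e ((QQ α φ (n + 1)).eval (r : ℝ))) +
        (lam / 2 : ℝ) * (∑ r ∈ Ioc 0 R, ((GG lam α φ n r : ℝ) : ℂ) *
          e ((-QQ α φ (n + 1)).eval (r : ℝ)))).re ≤ lam * ((1 + lam) ^ n * W) := by
      refine (Complex.re_le_norm _).trans ?_
      refine (norm_add_le _ _).trans ?_
      rw [norm_mul, norm_mul, hl]
      have e4 := mul_le_mul_of_nonneg_left e2 (by positivity : 0 ≤ lam / 2)
      have e5 := mul_le_mul_of_nonneg_left e3 (by positivity : 0 ≤ lam / 2)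
      linarith
    rw [pow_succ]
    linarith

lemma exp_le_one_add (y : ℝ) (h : |y| ≤ 1 / 2) : Real.exp (y - 2 * y ^ 2) ≤ 1 + y := by
  have h1 : |(-y)| < 1 := by rw [abs_neg]; linarith
  have h2 := Real.abs_log_sub_add_sum_range_le h1 1
  simp only [sum_range_one, zero_add, pow_one, Nat.cast_zero, div_one, abs_neg, sub_neg_eq_add] at h2
  have h3 : |y| ^ (1 + 1) / (1 - |y|) ≤ 2 * y ^ 2 := by
    rw [div_le_iff₀ (by linarith)]
    have : |y| ^ (1 + 1) = y ^ 2 := by rw [show 1 + 1 = 2 from rfl, sq_abs]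
    rw [this]
    nlinarith [sq_nonneg y]
  have h4 := (abs_le.1 (h2.trans h3)).1
  have h5 : 0 < 1 + y := by linarith [(abs_le.1 h).1]
  rw [← Real.exp_log h5, Real.exp_le_exp]
  linarith

/-- the deviations of the cosine sums -/
lemma dev_cos (α φ η : ℝ) (hη0 : 0 < η) (hη1 : η ≤ 1) (hα : α ≠ 0) (N R : ℕ) (W : ℝ)
    (hW : WeylBd α N R W) (hW0 : 0 ≤ W) (n : ℕ) (hn : n ≤ N) :
    (((Ioc 0 R).filter fun r : ℕ => η * n ≤ ∑ i ∈ Icc 1 n,
      Real.cos (2 * Real.pi * (α * (r : ℝ) ^ i + φ))).card : ℝ) ≤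
      Real.exp (-(η ^ 2 * n / 8)) * (R + 2 ^ n * W) := by
  set lam : ℝ := η / 4 with hlam
  have hl0 : 0 ≤ lam := by positivity
  have hl1 : lam ≤ 1 / 4 := by rw [hlam]; linarith
  set S := (Ioc 0 R).filter fun r : ℕ => η * n ≤ ∑ i ∈ Icc 1 n,
      Real.cos (2 * Real.pi * (α * (r : ℝ) ^ i + φ)) with hS
  have h1 : ∀ r ∈ S, Real.exp (η ^ 2 * n / 8) ≤ GG lam α φ n r := by
    intro r hr
    rw [hS, mem_filter] at hr
    have h2 : ∏ i ∈ Icc 1 n, Real.exp (lam * Real.cos (2 * Real.pi * (α * (r : ℝ) ^ i + φ)) -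
        2 * lam ^ 2) ≤ GG lam α φ n r := by
      rw [GG]
      refine prod_le_prod (fun i _ => (Real.exp_pos _).le) fun i _ => ?_
      set c := Real.cos (2 * Real.pi * (α * (r : ℝ) ^ i + φ)) with hc
      have hc1 : |c| ≤ 1 := Real.abs_cos_le_one _
      have hc2 : |lam * c| ≤ 1 / 2 := by
        rw [abs_mul, abs_of_nonneg hl0]
        nlinarith [abs_nonneg c]
      refine le_trans ?_ (exp_le_one_add (lam * c) hc2)
      rw [Real.exp_le_exp]
      have hc3 : c ^ 2 ≤ 1 := by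
        rw [← sq_abs]; nlinarith [abs_nonneg c]
      nlinarith [mul_nonneg (sq_nonneg lam) (by linarith : 0 ≤ 1 - c ^ 2)]
    refine le_trans ?_ h2
    rw [← Real.exp_sum, Real.exp_le_exp, sum_sub_distrib, ← mul_sum, sum_const, Nat.card_Icc,
      Nat.add_sub_cancel, nsmul_eq_mul]
    have h3 := mul_le_mul_of_nonneg_left hr.2 hl0
    have h4 : η ^ 2 * n / 8 = lam * (η * n) - n * (2 * lam ^ 2) := by rw [hlam]; ring
    linarith
  have h2 : (S.card : ℝ) * Real.exp (η ^ 2 * n / 8) ≤ R + 2 ^ n * W := by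
    calc (S.card : ℝ) * Real.exp (η ^ 2 * n / 8) = ∑ r ∈ S, Real.exp (η ^ 2 * n / 8) := by
          rw [sum_const, nsmul_eq_mul]
      _ ≤ ∑ r ∈ S, GG lam α φ n r := sum_le_sum h1
      _ ≤ ∑ r ∈ Ioc 0 R, GG lam α φ n r :=
          sum_le_sum_of_subset_of_nonneg (filter_subset _ _)
            fun r _ _ => GG_nonneg lam α φ hl0 (by linarith) n r
      _ ≤ R + ((1 + lam) ^ n - 1) * W := mean lam α φ hl0 hα N R W hW n hn
      _ ≤ R + 2 ^ n * W := by
          have h3 : (1 + lam) ^ n ≤ 2 ^ n := pow_le_pow_left₀ (by positivity) (by linarith) n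
          nlinarith
  have h3 : (S.card : ℝ) = Real.exp (-(η ^ 2 * n / 8)) * (S.card * Real.exp (η ^ 2 * n / 8)) := by
    rw [mul_comm (S.card : ℝ), ← mul_assoc, ← Real.exp_add, neg_add_cancel, Real.exp_zero, one_mul]
  rw [h3]
  exact mul_le_mul_of_nonneg_left h2 (Real.exp_pos _).le

/-- the deviations of the exponential sums -/
lemma dev (α η : ℝ) (hη0 : 0 < η) (hη1 : η ≤ 1) (hα : α ≠ 0) (N R : ℕ) (W : ℝ)
    (hW : WeylBd α N R W) (hW0 : 0 ≤ W) (n : ℕ) (hn : n ≤ N) :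
    (((Ioc 0 R).filter fun r : ℕ => 2 * η * n < ‖∑ i ∈ Icc 1 n, e (α * (r : ℝ) ^ i)‖).card : ℝ) ≤
      4 * (Real.exp (-(η ^ 2 * n / 8)) * (R + 2 ^ n * W)) := by
  classical
  have h0 := dev_cos α 0 η hη0 hη1 hα N R W hW hW0 n hn
  have h1 := dev_cos α (1 / 2) η hη0 hη1 hα N R W hW hW0 n hn
  have h2 := dev_cos α (-(1 / 4)) η hη0 hη1 hα N R W hW hW0 n hn
  have h3 := dev_cos α (1 / 4) η hη0 hη1 hα N R W hW hW0 n hn
  set F : ℝ → Finset ℕ := fun φ => (Ioc 0 R).filter fun r : ℕ => η * n ≤ ∑ i ∈ Icc 1 n,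
      Real.cos (2 * Real.pi * (α * (r : ℝ) ^ i + φ)) with hF
  have hsub : (Ioc 0 R).filter (fun r : ℕ => 2 * η * n < ‖∑ i ∈ Icc 1 n, e (α * (r : ℝ) ^ i)‖) ⊆
      (F 0 ∪ F (1 / 2)) ∪ (F (-(1 / 4)) ∪ F (1 / 4)) := by
    intro r hr
    rw [mem_filter] at hr
    set z := ∑ i ∈ Icc 1 n, e (α * (r : ℝ) ^ i) with hz
    have hre : ∀ t : ℝ, (e t).re = Real.cos (2 * Real.pi * t) := by
      intro t
      unfold Pool.Agent.H469R2.NK.e
      rw [Complex.exp_ofReal_mul_I_re]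
    have him : ∀ t : ℝ, (e t).im = Real.sin (2 * Real.pi * t) := by
      intro t
      unfold Pool.Agent.H469R2.NK.e
      rw [Complex.exp_ofReal_mul_I_im]
    have a0 : ∑ i ∈ Icc 1 n, Real.cos (2 * Real.pi * (α * (r : ℝ) ^ i + 0)) = z.re := by
      rw [hz, Complex.re_sum]
      refine sum_congr rfl fun i _ => ?_
      rw [hre, add_zero]
    have a1 : ∑ i ∈ Icc 1 n, Real.cos (2 * Real.pi * (α * (r : ℝ) ^ i + 1 / 2)) = -z.re := by
      rw [hz, Complex.re_sum, ← sum_neg_distrib]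
      refine sum_congr rfl fun i _ => ?_
      rw [hre, mul_add, show 2 * Real.pi * (1 / 2) = Real.pi by ring, Real.cos_add_pi]
    have a2 : ∑ i ∈ Icc 1 n, Real.cos (2 * Real.pi * (α * (r : ℝ) ^ i + -(1 / 4))) = z.im := by
      rw [hz, Complex.im_sum]
      refine sum_congr rfl fun i _ => ?_
      rw [him, mul_add, show 2 * Real.pi * (-(1 / 4)) = -(Real.pi / 2) by ring, ← sub_eq_add_neg,
        Real.cos_sub_pi_div_two]
    have a3 : ∑ i ∈ Icc 1 n, Real.cos (2 * Real.pi * (α * (r : ℝ) ^ i + 1 / 4)) = -z.im := by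
      rw [hz, Complex.im_sum, ← sum_neg_distrib]
      refine sum_congr rfl fun i _ => ?_
      rw [him, mul_add, show 2 * Real.pi * (1 / 4) = Real.pi / 2 by ring, Real.cos_add_pi_div_two]
    have h4 : ‖z‖ ≤ |z.re| + |z.im| := Complex.norm_le_abs_re_add_abs_im z
    have h5 : η * n ≤ |z.re| ∨ η * n ≤ |z.im| := by
      by_contra hcon
      push Not at hcon
      have := hr.2
      linarith [hcon.1, hcon.2]
    simp only [mem_union, hF, mem_filter]
    rcases h5 with h5 | h5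
    · rcases le_abs.1 h5 with h6 | h6
      · exact Or.inl (Or.inl ⟨hr.1, by rw [a0]; exact h6⟩)
      · exact Or.inl (Or.inr ⟨hr.1, by rw [a1]; exact h6⟩)
    · rcases le_abs.1 h5 with h6 | h6
      · exact Or.inr (Or.inl ⟨hr.1, by rw [a2]; exact h6⟩)
      · exact Or.inr (Or.inr ⟨hr.1, by rw [a3]; exact h6⟩)
  have h4 : (((Ioc 0 R).filter fun r : ℕ => 2 * η * n < ‖∑ i ∈ Icc 1 n, e (α * (r : ℝ) ^ i)‖).card : ℝ)
      ≤ ((F 0).card + (F (1 / 2)).card) + ((F (-(1 / 4))).card + (F (1 / 4)).card) := by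
    have h5 := (card_le_card hsub).trans ((card_union_le _ _).trans
      (add_le_add (card_union_le _ _) (card_union_le _ _)))
    exact_mod_cast h5
  linarith

end Pool.Agent.Helper478.Bases
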