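import Pool.Agent.Helper478_Bases.Bd

/-!
# Almost all bases
-/

set_option autoImplicit false

namespace Pool.Agent.Helper478.Bases

open Finset Polynomial Filter Topology
open Pool.Agent.H469R2.NK (e norm_e e_add e_zero conj_e)

/-- the discrepancy of the points `x r ^ i`, `1 ≤ i ≤ n`, modulo one is at most `ε` -/
def Equi (r n : ℕ) (ε x : ℝ) : Prop :=
  ∀ α β : ℝ, 0 ≤ α → α < β → β ≤ 1 →
    |(({i : ℕ | 1 ≤ i ∧ i ≤ n ∧ α ≤ Int.fract (x * (r : ℝ) ^ i) ∧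
      Int.fract (x * (r : ℝ) ^ i) < β}.ncard : ℕ) : ℝ) - (β - α) * n| ≤ ε * n

lemma Equi.mono {r n : ℕ} {ε ε' x : ℝ} (h : Equi r n ε x) (hε : ε ≤ ε') : Equi r n ε' x := by
  intro α β h1 h2 h3
  refine (h α β h1 h2 h3).trans ?_
  gcongr

/-- from the exponential sums to the discrepancy -/
lemma equi_of (r n K : ℕ) (x ε η : ℝ) (hK : 1 ≤ K) (hε0 : 0 < ε) (hε1 : ε ≤ 1) (hη : 0 ≤ η)
    (h1 : 64 ≤ ε ^ 2 * K) (h2 : 2 * η * K ≤ ε / 8)
    (h : ∀ k ∈ Icc 1 K, ‖∑ i ∈ Icc 1 n, e (((k : ℝ) * x) * (r : ℝ) ^ i)‖ ≤ 2 * η * n) :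
    Equi r n ε x := by
  classical
  have hK0 : (0 : ℝ) < K := by exact_mod_cast hK
  have key : ∀ β : ℝ, |∑ i ∈ Icc 1 n, (Int.fract (x * (r : ℝ) ^ i - β) - 1 / 2)| ≤ 3 / 8 * ε * n := by
    intro β
    have h3 := Pool.Agent.R485.Trans.saw_bound (Icc 1 n) (fun i : ℕ => x * (r : ℝ) ^ i - β) K hK (ε / 8)
      (by positivity) (by linarith)
    refine h3.trans ?_
    rw [Nat.card_Icc, Nat.add_sub_cancel]
    have h4 : ∑ k ∈ Icc 1 K, ‖∑ i ∈ Icc 1 n, e ((k : ℝ) * (x * (r : ℝ) ^ i - β))‖ / k ≤ ε / 8 * n := by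
      have h5 : ∀ k ∈ Icc 1 K, ‖∑ i ∈ Icc 1 n, e ((k : ℝ) * (x * (r : ℝ) ^ i - β))‖ / k ≤ 2 * η * n := by
        intro k hk
        have hk1 : (1 : ℝ) ≤ k := by exact_mod_cast (mem_Icc.1 hk).1
        have h6 : ∀ i : ℕ, e ((k : ℝ) * (x * (r : ℝ) ^ i - β)) =
            e (-(k * β)) * e (((k : ℝ) * x) * (r : ℝ) ^ i) := by
          intro i
          rw [← e_add]
          congr 1
          ring
        simp_rw [h6]
        rw [← mul_sum, norm_mul, norm_e, one_mul]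
        refine (div_le_self (norm_nonneg _) hk1).trans (h k hk)
      refine (sum_le_card_nsmul _ _ _ h5).trans ?_
      rw [Nat.card_Icc, Nat.add_sub_cancel, nsmul_eq_mul]
      calc (K : ℝ) * (2 * η * n) = 2 * η * K * n := by ring
        _ ≤ ε / 8 * n := by gcongr
    have h5 : (n : ℝ) / (K * (ε / 8)) ≤ ε / 8 * n := by
      rw [div_le_iff₀ (by positivity)]
      have : (n : ℝ) * 64 ≤ n * (ε ^ 2 * K) := by gcongr
      nlinarith
    linarith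
  intro α β h3 h4 h5
  have h6 : (({i : ℕ | 1 ≤ i ∧ i ≤ n ∧ α ≤ Int.fract (x * (r : ℝ) ^ i) ∧
      Int.fract (x * (r : ℝ) ^ i) < β}.ncard : ℕ) : ℝ) =
      ∑ i ∈ Icc 1 n, (if α ≤ Int.fract (x * (r : ℝ) ^ i) ∧ Int.fract (x * (r : ℝ) ^ i) < β
        then (1 : ℝ) else 0) := by
    have e1 : {i : ℕ | 1 ≤ i ∧ i ≤ n ∧ α ≤ Int.fract (x * (r : ℝ) ^ i) ∧
      Int.fract (x * (r : ℝ) ^ i) < β} = (((Icc 1 n).filter fun i : ℕ =>
        α ≤ Int.fract (x * (r : ℝ) ^ i) ∧ Int.fract (x * (r : ℝ) ^ i) < β : Finset ℕ) : Set ℕ) := by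
      ext i
      simp only [Set.mem_ofPred_eq, Finset.coe_filter, mem_Icc]
      tauto
    rw [e1, Set.ncard_coe_finset, sum_boole]
  have h7 : (({i : ℕ | 1 ≤ i ∧ i ≤ n ∧ α ≤ Int.fract (x * (r : ℝ) ^ i) ∧
      Int.fract (x * (r : ℝ) ^ i) < β}.ncard : ℕ) : ℝ) - (β - α) * n =
      ∑ i ∈ Icc 1 n, (Int.fract (x * (r : ℝ) ^ i - β) - 1 / 2) -
      ∑ i ∈ Icc 1 n, (Int.fract (x * (r : ℝ) ^ i - α) - 1 / 2) := by
    rw [h6, ← sum_sub_distrib]
    have e2 : (β - α) * (n : ℝ) = ∑ i ∈ Icc 1 n, (β - α) := by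
      rw [sum_const, Nat.card_Icc, Nat.add_sub_cancel, nsmul_eq_mul]; ring
    rw [e2, ← sum_sub_distrib]
    refine sum_congr rfl fun i _ => ?_
    exact Pool.Agent.R485.Trans.indicator_eq (x * (r : ℝ) ^ i) α β h3 h4 h5
  rw [h7]
  have h8 := key β
  have h9 := key α
  have h10 : 0 ≤ ε * n := by positivity
  rw [abs_le] at h8 h9 ⊢
  constructor <;> linarith [h8.1, h8.2, h9.1, h9.2]

lemma AlgSet.mono {d d' : ℕ} {A A' : ℝ} (hd : d ≤ d') (hA : A ≤ A') : AlgSet d A ⊆ AlgSet d' A' := by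
  rintro x ⟨h1, P, h2, h3, h4, h5⟩
  exact ⟨h1, P, h2, h3.trans hd, fun i => (h4 i).trans hA, h5⟩

lemma geom_tail (q : ℝ) (hq0 : 0 < q) (hq1 : q < 1) (N T : ℕ) :
    ∑ n ∈ Ico N T, q ^ n ≤ q ^ N / (1 - q) := by
  rcases Nat.lt_or_ge T N with h | h
  · rw [Ico_eq_empty (by omega), sum_empty]
    have : 0 < 1 - q := by linarith
    positivity
  · rw [geom_sum_Ico hq1.ne h]
    have h1 : (q ^ T - q ^ N) / (q - 1) = (q ^ N - q ^ T) / (1 - q) := by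
      rw [← neg_sub (q ^ N), ← neg_sub 1 q, neg_div_neg_eq]
    rw [h1]
    have : 0 < 1 - q := by linarith
    gcongr
    have : 0 < q ^ T := by positivity
    linarith

/-- the exceptional bases are few -/
theorem few : ∃ κ : ℕ, 1 ≤ κ ∧ ∀ d : ℕ, 1 ≤ d → ∀ ε : ℝ, 0 < ε → ∃ c : ℝ, 0 < c ∧ ∃ N₀ : ℕ,
    ∀ N R : ℕ, N₀ ≤ N →
    (({r : ℕ | 1 ≤ r ∧ r ≤ R ∧ ∃ x ∈ AlgSet d (Real.exp (c * N)), ∃ n : ℕ, N ≤ n ∧
      (n : ℝ) ^ κ ≤ Real.log R ∧ ¬ Equi r n ε x}.ncard : ℕ) : ℝ) ≤ Real.exp (-(c * N)) * R := by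
  classical
  obtain ⟨κ, hκ, hW⟩ := weylBd
  refine ⟨κ, hκ, ?_⟩
  intro d hd ε' hε'
  set ε : ℝ := min ε' 1 with hε
  have hε0 : 0 < ε := lt_min hε' one_pos
  have hε1 : ε ≤ 1 := min_le_right _ _
  have hεε' : ε ≤ ε' := min_le_left _ _
  obtain ⟨K, hK1, hK64⟩ : ∃ K : ℕ, 1 ≤ K ∧ 64 ≤ ε ^ 2 * K := by
    refine ⟨⌈64 / ε ^ 2⌉₊ + 1, by omega, ?_⟩
    have h1 := Nat.le_ceil (64 / ε ^ 2)
    rw [div_le_iff₀ (by positivity)] at h1
    push_cast
    have h2 : 0 < ε ^ 2 := by positivity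
    nlinarith
  have hK0 : (1 : ℝ) ≤ K := by exact_mod_cast hK1
  obtain ⟨n₀, hn₀⟩ := hW d K hd hK1
  set η : ℝ := ε / (16 * K) with hη
  have hη0 : 0 < η := by positivity
  have hη1 : η ≤ 1 := by
    rw [hη, div_le_one (by positivity)]
    linarith
  have hηK : 2 * η * K ≤ ε / 8 := by
    rw [hη]
    apply le_of_eq
    field_simp
    norm_num
  have hd0 : (0 : ℝ) < d := by exact_mod_cast hd
  set c : ℝ := η ^ 2 / (16 * (d + 2)) with hc
  have hc0 : 0 < c := by positivity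
  have hc1 : c ≤ 1 := by
    rw [hc, div_le_one (by positivity)]
    have : η ^ 2 ≤ 1 := by nlinarith
    linarith
  set q : ℝ := Real.exp (-(η ^ 2 / 8)) with hq
  have hq0 : 0 < q := Real.exp_pos _
  have hq1 : q < 1 := by
    rw [hq, Real.exp_lt_one_iff]
    have : 0 < η ^ 2 / 8 := by positivity
    linarith
  set Q : ℝ := d * 3 ^ (d + 1) * K * 8 / (1 - q) with hQ
  have h1q : 0 < 1 - q := by linarith
  have hQ0 : 0 < Q := by positivity
  refine ⟨c, hc0, max (max n₀ 1) ⌈16 * Q / η ^ 2⌉₊, ?_⟩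
  intro N R hN
  have hN1 : 1 ≤ N := le_trans (le_max_right n₀ 1) (le_trans (le_max_left _ _) hN)
  have hN2 : n₀ ≤ N := le_trans (le_max_left n₀ 1) (le_trans (le_max_left _ _) hN)
  have hN3 : ⌈16 * Q / η ^ 2⌉₊ ≤ N := le_trans (le_max_right _ _) hN
  have hN4 : 16 * Q / η ^ 2 ≤ N := (Nat.le_ceil _).trans (by exact_mod_cast hN3)
  obtain ⟨T, hT1, hT2⟩ := count d (Real.exp (c * N)) (Real.exp_pos _).le
  set T' : Finset ℝ := T.filter fun x => x ∈ AlgSet d (Real.exp (c * N)) with hT'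
  set I : Finset ℕ := (Ico N (⌊Real.log R⌋₊ + 1)).filter fun n => (n : ℝ) ^ κ ≤ Real.log R with hI
  let Bad : ℝ → ℕ → ℕ → Finset ℕ := fun x k n =>
    (Ioc 0 R).filter fun r : ℕ => 2 * η * n < ‖∑ i ∈ Icc 1 n, e (((k : ℝ) * x) * (r : ℝ) ^ i)‖
  have hbad : ∀ x ∈ T', ∀ k ∈ Icc 1 K, ∀ n ∈ I, ((Bad x k n).card : ℝ) ≤ 8 * R * q ^ n := by
    intro x hx k hk n hn
    rw [hT', mem_filter] at hx
    rw [hI, mem_filter, mem_Ico] at hn
    rw [mem_Icc] at hk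
    have hx' : x ∈ AlgSet d (Real.exp n) := by
      refine AlgSet.mono le_rfl ?_ hx.2
      rw [Real.exp_le_exp]
      have : (N : ℝ) ≤ n := by exact_mod_cast hn.1.1
      nlinarith
    obtain ⟨W, hW0, hWb, hW2⟩ := hn₀ n R (hN2.trans hn.1.1) hn.2 x hx' k hk.1 hk.2
    have hne : (k : ℝ) * x ≠ 0 := by
      apply mul_ne_zero
      · exact_mod_cast (by omega : k ≠ 0)
      · exact hx.2.1.ne_zero
    have h1 := dev ((k : ℝ) * x) η hη0 hη1 hne n R W hWb hW0 n le_rfl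
    refine h1.trans ?_
    have h2 : Real.exp (-(η ^ 2 * n / 8)) = q ^ n := by
      rw [hq, ← Real.exp_nat_mul]; congr 1; ring
    rw [h2]
    have h3 : 0 < q ^ n := by positivity
    nlinarith
  have hsub : {r : ℕ | 1 ≤ r ∧ r ≤ R ∧ ∃ x ∈ AlgSet d (Real.exp (c * N)), ∃ n : ℕ, N ≤ n ∧
      (n : ℝ) ^ κ ≤ Real.log R ∧ ¬ Equi r n ε' x} ⊆
      ((T'.biUnion fun x => (Icc 1 K).biUnion fun k => I.biUnion fun n => Bad x k n : Finset ℕ) : Set ℕ) := by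
    rintro r ⟨hr1, hr2, x, hx, n, hn1, hn2, hne⟩
    rw [Finset.mem_coe, mem_biUnion]
    refine ⟨x, ?_, ?_⟩
    · rw [hT', mem_filter]
      exact ⟨Finset.mem_coe.1 (hT1 hx), hx⟩
    · rw [mem_biUnion]
      by_contra hcon
      push Not at hcon
      apply hne
      refine (equi_of r n K x ε η hK1 hε0 hε1 hη0.le hK64 hηK ?_).mono hεε'
      intro k hk
      by_contra hk2
      push Not at hk2
      apply hcon k hk
      rw [mem_biUnion]
      refine ⟨n, ?_, ?_⟩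
      · rw [hI, mem_filter, mem_Ico]
        refine ⟨⟨hn1, ?_⟩, hn2⟩
        rw [Nat.lt_succ_iff]
        apply Nat.le_floor
        have hn1' : (1 : ℝ) ≤ n := by exact_mod_cast hN1.trans hn1
        calc (n : ℝ) = (n : ℝ) ^ 1 := (pow_one _).symm
          _ ≤ (n : ℝ) ^ κ := pow_le_pow_right₀ hn1' hκ
          _ ≤ _ := hn2
      · simp only [Bad, mem_filter, mem_Ioc]
        exact ⟨⟨by omega, hr2⟩, hk2⟩
  have hcard : (({r : ℕ | 1 ≤ r ∧ r ≤ R ∧ ∃ x ∈ AlgSet d (Real.exp (c * N)), ∃ n : ℕ, N ≤ n ∧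
      (n : ℝ) ^ κ ≤ Real.log R ∧ ¬ Equi r n ε' x}.ncard : ℕ) : ℝ) ≤
      ∑ x ∈ T', ∑ k ∈ Icc 1 K, ∑ n ∈ I, 8 * R * q ^ n := by
    have h1 := Set.ncard_le_ncard hsub (Finset.finite_toSet _)
    rw [Set.ncard_coe_finset] at h1
    have h2 : ((T'.biUnion fun x => (Icc 1 K).biUnion fun k => I.biUnion fun n => Bad x k n).card : ℝ) ≤
        ∑ x ∈ T', ∑ k ∈ Icc 1 K, ∑ n ∈ I, ((Bad x k n).card : ℝ) := by
      have h3 : (T'.biUnion fun x => (Icc 1 K).biUnion fun k => I.biUnion fun n => Bad x k n).card ≤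
          ∑ x ∈ T', ∑ k ∈ Icc 1 K, ∑ n ∈ I, (Bad x k n).card :=
        card_biUnion_le.trans (sum_le_sum fun x _ => card_biUnion_le.trans
          (sum_le_sum fun k _ => card_biUnion_le))
      exact_mod_cast h3
    calc _ ≤ ((T'.biUnion fun x => (Icc 1 K).biUnion fun k => I.biUnion fun n => Bad x k n).card : ℝ) := by
          exact_mod_cast h1
      _ ≤ _ := h2
      _ ≤ _ := sum_le_sum fun x hx => sum_le_sum fun k hk => sum_le_sum fun n hn => hbad x hx k hk n hn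
  refine hcard.trans ?_
  rw [sum_const, sum_const, Nat.card_Icc, Nat.add_sub_cancel, ← mul_sum]
  have h1 : ∑ n ∈ I, q ^ n ≤ q ^ N / (1 - q) :=
    (sum_le_sum_of_subset_of_nonneg (filter_subset _ _) fun n _ _ => by positivity).trans
      (geom_tail q hq0 hq1 _ _)
  have h2 : (T'.card : ℝ) ≤ d * 3 ^ (d + 1) * Real.exp (c * N * (d + 1)) := by
    have h3 : (T'.card : ℝ) ≤ T.card := by exact_mod_cast card_filter_le _ _
    refine h3.trans (hT2.trans ?_)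
    have h4 : 1 ≤ Real.exp (c * N) := Real.one_le_exp (by positivity)
    have h5 : Real.exp (c * N * (d + 1)) = Real.exp (c * N) ^ (d + 1) := by
      rw [← Real.exp_nat_mul]; congr 1; push_cast; ring
    rw [h5, mul_assoc, ← mul_pow]
    gcongr
    linarith
  rw [nsmul_eq_mul, nsmul_eq_mul]
  have h3 : q ^ N = Real.exp (-(η ^ 2 / 8 * N)) := by
    rw [hq, ← Real.exp_nat_mul]; congr 1; ring
  have h4 : Q ≤ Real.exp (η ^ 2 / 16 * N) := by
    have h5 := Real.add_one_le_exp (η ^ 2 / 16 * N)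
    rw [div_le_iff₀ (by positivity)] at hN4
    nlinarith
  calc (T'.card : ℝ) * (K * (8 * R * ∑ n ∈ I, q ^ n)) ≤
        (d * 3 ^ (d + 1) * Real.exp (c * N * (d + 1))) * (K * (8 * R * (q ^ N / (1 - q)))) := by gcongr
    _ = Q * (Real.exp (c * N * (d + 1)) * q ^ N) * R := by rw [hQ]; field_simp
    _ ≤ Real.exp (η ^ 2 / 16 * N) * (Real.exp (c * N * (d + 1)) * q ^ N) * R := by gcongr
    _ = Real.exp (-(c * N)) * R := by
        rw [h3, ← Real.exp_add, ← Real.exp_add]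
        congr 2
        have h6 : c * (d + 2) = η ^ 2 / 16 := by rw [hc]; field_simp
        have h7 : c * (N : ℝ) * (d + 1) = c * (d + 2) * N - c * N := by ring
        rw [h7, h6]
        ring

end Pool.Agent.Helper478.Bases
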