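import Pool.Agent.Helper478_Bases.Weyl
import Pool.Agent.Y957.VK.Triv
import Pool.Agent.Y331.VK.Lin
import Pool.Agent.Y235.VK.Hol
import Pool.Agent.Y950.VK.Cnt
import Pool.Agent.Y911.VK.Cond
import Pool.Agent.Y901.VK.Vmvt
import Pool.Agent.Y309.VK.DA
import Pool.Agent.Y93.VK.DB

/-!
# Weyl sums of high degree from Vinogradov's mean value theorem
-/

set_option autoImplicit false

namespace Pool.Agent.Helper478.Bases

open Finset
open Pool.Agent.H469R2.NK (e norm_e e_add e_zero conj_e)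
open Pool.Agent.Y957.VK (Tu J WJ mn dz TT S_VMVT S_DBL)

theorem vmvt : S_VMVT :=
  Pool.Agent.Y901.VK.vmvt
    (Pool.Agent.Y957.VK.rec_of Pool.Agent.Y235.VK.hol (Pool.Agent.Y950.VK.cnt Pool.Agent.Y331.VK.lin))
    Pool.Agent.Y911.VK.cond

theorem dbl : S_DBL := Pool.Agent.Y957.VK.dbl_of Pool.Agent.Y309.VK.da Pool.Agent.Y93.VK.db

lemma mn_le (V : ℕ) (θ : ℝ) : mn V θ ≤ 2 * V + 1 := by
  rw [mn]
  split_ifs
  · exact le_rfl
  · exact min_le_left _ _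

lemma mn_nonneg (V : ℕ) (θ : ℝ) : 0 ≤ mn V θ := by
  rw [mn]
  split_ifs
  · positivity
  · refine le_min (by positivity) ?_
    have : 0 ≤ dz θ := abs_nonneg _
    positivity

lemma mn_le_of (V : ℕ) (θ τ : ℝ) (hτ : 0 < τ) (h : τ ≤ dz θ) : mn V θ ≤ 1 / (2 * τ) := by
  rw [mn, if_neg (by linarith)]
  refine (min_le_right _ _).trans ?_
  apply one_div_le_one_div_of_le (by linarith)
  linarith

/-- the multiples with small distance to the integers are sparse -/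
lemma card_small (U V : ℕ) (a δ : ℝ) (hV : 1 ≤ V)
    (h : ∀ m : ℕ, 1 ≤ m → m ≤ V → ∀ P : ℤ, δ ≤ |m * a - P|) :
    (((Icc (-(U : ℤ)) (U : ℤ)).filter fun u : ℤ => dz (a * u) < δ / 2).card : ℝ) ≤ 2 * U / V + 2 := by
  classical
  set S := (Icc (-(U : ℤ)) (U : ℤ)).filter fun u : ℤ => dz (a * u) < δ / 2 with hS
  have hV0 : (0 : ℤ) < V := by exact_mod_cast hV
  have hV0' : (0 : ℝ) < V := by exact_mod_cast hV
  have hinj : Set.InjOn (fun u : ℤ => u / V) (S : Set ℤ) := by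
    -- two points in the same block
    have key : ∀ u ∈ S, ∀ v ∈ S, u / V = v / V → v < u → False := by
      intro u hu v hv huv hlt
      rw [hS, mem_filter] at hu hv
      have h1 : u - v < V := by
        have e1 := Int.emod_add_mul_ediv u V
        have e2 := Int.emod_add_mul_ediv v V
        have e3 := Int.emod_lt_of_pos u hV0
        have e4 := Int.emod_nonneg v hV0.ne'
        rw [huv] at e1
        linarith
      obtain ⟨m, hm⟩ : ∃ m : ℕ, (m : ℤ) = u - v := ⟨(u - v).toNat, Int.toNat_of_nonneg (by linarith)⟩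
      have hm1 : 1 ≤ m := by omega
      have hm2 : m ≤ V := by omega
      have h2 := h m hm1 hm2 (round (a * u) - round (a * v))
      have h3 : (m : ℝ) = u - v := by
        have : ((m : ℤ) : ℝ) = ((u - v : ℤ) : ℝ) := by rw [hm]
        push_cast at this
        exact this
      have h4 : |(m : ℝ) * a - ((round (a * u) - round (a * v) : ℤ) : ℝ)| ≤ dz (a * u) + dz (a * v) := by
        rw [dz, dz]
        have : (m : ℝ) * a - ((round (a * u) - round (a * v) : ℤ) : ℝ) =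
            (a * u - round (a * u)) - (a * v - round (a * v)) := by
          rw [h3]; push_cast; ring
        rw [this]
        exact abs_sub _ _
      linarith [hu.2, hv.2]
    intro u hu v hv huv
    rcases lt_trichotomy u v with h1 | h1 | h1
    · exact (key v hv u hu huv.symm h1).elim
    · exact h1
    · exact (key u hu v hv huv h1).elim
  have hcard : S.card ≤ (Icc (-((U / V : ℕ) : ℤ) - 1) ((U / V : ℕ) : ℤ)).card := by
    apply card_le_card_of_injOn _ _ hinj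
    intro u hu
    have hu1 := (mem_filter.1 (Finset.mem_coe.1 hu)).1
    rw [mem_Icc] at hu1
    rw [Finset.mem_coe, mem_Icc]
    have h1 : ((U / V : ℕ) : ℤ) = (U : ℤ) / V := by push_cast; rfl
    constructor
    · rw [h1]
      have h2 : (-(U : ℤ)) / V ≤ u / V := Int.ediv_le_ediv hV0 hu1.1
      have h3 : -((U : ℤ) / V) - 1 ≤ (-(U : ℤ)) / V := by
        rw [Int.le_ediv_iff_mul_le hV0]
        have e1 := Int.emod_add_mul_ediv (U : ℤ) V
        have e2 := Int.emod_lt_of_pos (U : ℤ) hV0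
        nlinarith
      linarith
    · rw [h1]
      exact Int.ediv_le_ediv hV0 hu1.2
  have h1 : (S.card : ℝ) ≤ 2 * ((U / V : ℕ) : ℝ) + 2 := by
    rw [Int.card_Icc] at hcard
    have : S.card ≤ 2 * (U / V) + 2 := by omega
    exact_mod_cast this
  have h2 : ((U / V : ℕ) : ℝ) ≤ (U : ℝ) / V := Nat.cast_div_le
  have h3 : 2 * (U : ℝ) / V = 2 * ((U : ℝ) / V) := by ring
  rw [h3]
  linarith

/-- the saving in one factor -/
lemma WJ_le (s M j V : ℕ) (a : ℝ) (hs : 1 ≤ s) (hM : 1 ≤ M) (hV : 1 ≤ V) (hVU : V ≤ s * M ^ j)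
    (h : ∀ m : ℕ, 1 ≤ m → m ≤ V → ∀ P : ℤ, (V : ℝ) / (s * M ^ j : ℕ) ≤ |m * a - P|) :
    WJ s M j a ≤ 15 * ((s * M ^ j : ℕ) : ℝ) ^ 2 / V := by
  classical
  set U := s * M ^ j with hU
  have hU1 : 1 ≤ U := hV.trans hVU
  have hU0 : (0 : ℝ) < U := by exact_mod_cast hU1
  have hU1' : (1 : ℝ) ≤ U := by exact_mod_cast hU1
  have hV0 : (0 : ℝ) < V := by exact_mod_cast hV
  have hVU' : (V : ℝ) ≤ U := by exact_mod_cast hVU
  set δ : ℝ := (V : ℝ) / U with hδ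
  have hδ0 : 0 < δ := by positivity
  have h1 := card_small U V a δ hV h
  rw [WJ, ← hU]
  rw [← sum_filter_add_sum_filter_not _ (fun u : ℤ => dz (a * u) < δ / 2)]
  have h2 : ∑ u ∈ (Icc (-(U : ℤ)) (U : ℤ)).filter (fun u : ℤ => dz (a * u) < δ / 2), mn U (a * u) ≤
      (2 * U / V + 2) * (3 * U) := by
    refine (sum_le_card_nsmul _ _ (3 * U : ℝ) fun u _ => ?_).trans ?_
    · refine (mn_le U _).trans ?_
      linarith
    · rw [nsmul_eq_mul]
      exact mul_le_mul_of_nonneg_right h1 (by positivity)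
  have h3 : ∑ u ∈ (Icc (-(U : ℤ)) (U : ℤ)).filter (fun u : ℤ => ¬ dz (a * u) < δ / 2), mn U (a * u) ≤
      (3 * U) * (U / V) := by
    refine (sum_le_card_nsmul _ _ (U / V : ℝ) fun u hu => ?_).trans ?_
    · rw [mem_filter, not_lt] at hu
      refine (mn_le_of U _ (δ / 2) (by positivity) hu.2).trans (le_of_eq ?_)
      rw [hδ]
      field_simp
    · rw [nsmul_eq_mul]
      apply mul_le_mul_of_nonneg_right _ (by positivity)
      have h4 : ((Icc (-(U : ℤ)) (U : ℤ)).filter (fun u : ℤ => ¬ dz (a * u) < δ / 2)).card ≤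
          (Icc (-(U : ℤ)) (U : ℤ)).card := card_filter_le _ _
      rw [Int.card_Icc] at h4
      have h5 : ((Icc (-(U : ℤ)) (U : ℤ)).filter (fun u : ℤ => ¬ dz (a * u) < δ / 2)).card ≤ 3 * U := by
        omega
      exact_mod_cast h5
  have h4 : (2 : ℝ) ≤ 2 * (U / V) := by
    rw [le_mul_iff_one_le_right (by norm_num), le_div_iff₀ hV0]
    linarith
  have h5 : 15 * (U : ℝ) ^ 2 / V = (4 * (U / V)) * (3 * U) + (3 * U) * (U / V) := by
    field_simp; ring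
  rw [h5]
  have h6 : 2 * (U : ℝ) / V = 2 * (U / V) := by ring
  rw [h6] at h2
  have h7 : (2 * ((U : ℝ) / V) + 2) * (3 * U) ≤ (4 * (U / V)) * (3 * U) :=
    mul_le_mul_of_nonneg_right (by linarith) (by positivity)
  linarith

lemma WJ_triv (s M j : ℕ) (a : ℝ) (hs : 1 ≤ s) (hM : 1 ≤ M) :
    WJ s M j a ≤ 15 * ((s * M ^ j : ℕ) : ℝ) ^ 2 := by
  have hU1 : 1 ≤ s * M ^ j := Nat.mul_pos hs (pow_pos hM j)
  have hU1' : (1 : ℝ) ≤ ((s * M ^ j : ℕ) : ℝ) := by exact_mod_cast hU1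
  set U := s * M ^ j with hU
  rw [WJ, ← hU]
  refine (sum_le_card_nsmul _ _ (3 * U : ℝ) fun u _ => ?_).trans ?_
  · refine (mn_le U _).trans ?_
    linarith
  · rw [nsmul_eq_mul, Int.card_Icc]
    have h1 : ((U : ℤ) + 1 - -(U : ℤ)).toNat = 2 * U + 1 := by omega
    rw [h1]
    push_cast
    nlinarith

lemma WJ_nonneg (s M j : ℕ) (a : ℝ) : 0 ≤ WJ s M j a := by
  rw [WJ]
  exact sum_nonneg fun u _ => mn_nonneg _ _

lemma prod_WJ_le (s M k V : ℕ) (β : ℕ → ℝ) (hk : 1 ≤ k) (hs : 1 ≤ s) (hM : 1 ≤ M) (hV : 1 ≤ V)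
    (hVM : V ≤ M)
    (h : ∀ m : ℕ, 1 ≤ m → m ≤ V → ∀ P : ℤ, (V : ℝ) / (s * M ^ k : ℕ) ≤ |m * β k - P|) :
    ∏ j ∈ Icc 1 k, WJ s M j (β j) ≤ (15 * (s : ℝ) ^ 2) ^ k * (M : ℝ) ^ (k * (k + 1)) / V := by
  obtain ⟨k, rfl⟩ : ∃ l, k = l + 1 := ⟨k - 1, by omega⟩
  rw [prod_Icc_succ_top (by omega)]
  have hVU : V ≤ s * M ^ (k + 1) := by
    calc V = 1 * (V * 1) := by ring
      _ ≤ s * (M * M ^ k) := Nat.mul_le_mul hs (Nat.mul_le_mul hVM (Nat.one_le_pow _ _ hM))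
      _ = s * M ^ (k + 1) := by rw [pow_succ]; ring
  have h1 := WJ_le s M (k + 1) V (β (k + 1)) hs hM hV hVU h
  have h2 : ∏ j ∈ Icc 1 k, WJ s M j (β j) ≤ ∏ j ∈ Icc 1 k, (15 * ((s * M ^ j : ℕ) : ℝ) ^ 2) :=
    prod_le_prod (fun j _ => WJ_nonneg _ _ _ _) fun j _ => WJ_triv s M j _ hs hM
  have h3 : ∀ k : ℕ, ∏ j ∈ Icc 1 k, (15 * ((s * M ^ j : ℕ) : ℝ) ^ 2) =
      (15 * (s : ℝ) ^ 2) ^ k * (M : ℝ) ^ (k * (k + 1)) := by
    intro k
    induction k with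
    | zero => simp
    | succ k ih =>
      rw [prod_Icc_succ_top (by omega), ih]
      push_cast
      rw [mul_pow (s : ℝ), ← pow_mul]
      rw [show (k + 1) * (k + 1 + 1) = k * (k + 1) + (k + 1) * 2 by ring, pow_add, pow_succ]
      ring
  calc _ ≤ (∏ j ∈ Icc 1 k, (15 * ((s * M ^ j : ℕ) : ℝ) ^ 2)) *
        (15 * ((s * M ^ (k + 1) : ℕ) : ℝ) ^ 2 / V) :=
        mul_le_mul h2 h1 (WJ_nonneg _ _ _ _) (prod_nonneg fun j _ => by positivity)
    _ = (∏ j ∈ Icc 1 (k + 1), (15 * ((s * M ^ j : ℕ) : ℝ) ^ 2)) / V := by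
        rw [prod_Icc_succ_top (by omega)]; ring
    _ = _ := by rw [h3]

/-- bilinear sums of degree `k`, saving from the leading coefficient only -/
theorem TT_le : ∃ C : ℕ, ∀ (d k V : ℕ) (L : ℝ) (β : ℕ → ℝ), 1 ≤ d → 2 ≤ k → 1 ≤ V → ∀ m s : ℕ,
    m = 4 * d * k ^ 2 * (k + 1) → s = k ^ 2 + k * m →
    (∀ m' : ℕ, 1 ≤ m' → m' ≤ V → ∀ P : ℤ, (V : ℝ) / (s * (V ^ (2 * d)) ^ k : ℕ) ≤ |m' * β k - P|) →
    4 * C * ((k : ℝ) + m) ^ C + 2 * k * Real.log (15 * (s : ℝ) ^ 2) + 8 * (s : ℝ) ^ 2 * L ≤ Real.log V →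
    ‖TT k (V ^ (2 * d)) β‖ ≤ (((V ^ (2 * d) : ℕ) : ℝ)) ^ 2 * Real.exp (-L) := by
  obtain ⟨C, hC⟩ := vmvt
  refine ⟨C, ?_⟩
  intro d k V L β hd hk hV m s hm hs h hL
  set M : ℕ := V ^ (2 * d) with hM
  have hV0 : (0 : ℝ) < V := by exact_mod_cast hV
  have hV1 : (1 : ℝ) ≤ V := by exact_mod_cast hV
  have hM1 : 1 ≤ M := Nat.one_le_pow _ _ hV
  have hM0 : (0 : ℝ) < M := by exact_mod_cast hM1
  have hVM : V ≤ M := by
    calc V = V ^ 1 := (pow_one V).symm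
      _ ≤ V ^ (2 * d) := Nat.pow_le_pow_right hV (by omega)
  have hk0 : (0 : ℝ) < k := by positivity
  have hs1 : 1 ≤ s := by
    rw [hs]
    have : 1 ≤ k ^ 2 := Nat.one_le_pow _ _ (by omega)
    omega
  have hs0 : (0 : ℝ) < s := by exact_mod_cast hs1
  have h1 := dbl s k M β hs1 (by omega) hM1
  have h2 := hC k m M hk hM1
  rw [← hs] at h2
  have h3 := prod_WJ_le s M k V β (by omega) hs1 hM1 hV hVM h
  set y : ℝ := (1 - 1 / (k : ℝ)) ^ m with hy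
  have hy0 : 0 ≤ y := by
    rw [hy]
    apply pow_nonneg
    have : (1 : ℝ) / k ≤ 1 := by
      rw [div_le_one hk0]; exact_mod_cast (by omega : 1 ≤ k)
    linarith
  have hy1 : y ≤ 1 / (4 * d * k * (k + 1)) := by
    have hd0 : (0 : ℝ) < d := by exact_mod_cast hd
    have h4 : 1 - 1 / (k : ℝ) ≤ Real.exp (-(1 / (k : ℝ))) := by
      have := Real.add_one_le_exp (-(1 / (k : ℝ)))
      linarith
    have h5 : y ≤ Real.exp (-(1 / (k : ℝ))) ^ m := by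
      rw [hy]
      apply pow_le_pow_left₀ _ h4
      have : (1 : ℝ) / k ≤ 1 := by
        rw [div_le_one hk0]; exact_mod_cast (by omega : 1 ≤ k)
      linarith
    rw [← Real.exp_nat_mul] at h5
    have h6 : (m : ℝ) * -(1 / (k : ℝ)) = -(4 * d * k * (k + 1)) := by
      rw [hm]; push_cast; field_simp
    rw [h6, Real.exp_neg] at h5
    refine h5.trans ?_
    rw [one_div]
    apply inv_anti₀ (by positivity)
    have := Real.add_one_le_exp (4 * (d : ℝ) * k * (k + 1))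
    linarith
  have hMy : (M : ℝ) ^ ((k : ℝ) * (k + 1) * y) ≤ Real.exp (Real.log V / 2) := by
    have hd0 : (0 : ℝ) < d := by exact_mod_cast hd
    have e1 : (M : ℝ) = (V : ℝ) ^ ((2 * d : ℕ) : ℝ) := by
      rw [hM, Real.rpow_natCast]; push_cast; ring
    rw [e1, ← Real.rpow_mul hV0.le, Real.rpow_def_of_pos hV0, Real.exp_le_exp]
    have hlog : 0 ≤ Real.log V := Real.log_nonneg hV1
    have e2 : ((2 * d : ℕ) : ℝ) * ((k : ℝ) * (k + 1) * y) ≤ 1 / 2 := by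
      have : (k : ℝ) * (k + 1) * y ≤ k * (k + 1) * (1 / (4 * d * k * (k + 1))) := by gcongr
      have e3 : (k : ℝ) * (k + 1) * (1 / (4 * d * k * (k + 1))) = 1 / (4 * d) := by field_simp
      rw [e3] at this
      push_cast
      calc (2 * (d : ℝ)) * ((k : ℝ) * (k + 1) * y) ≤ (2 * d) * (1 / (4 * d)) := by gcongr
        _ = 1 / 2 := by field_simp; norm_num
    calc Real.log V * (((2 * d : ℕ) : ℝ) * ((k : ℝ) * (k + 1) * y)) ≤ Real.log V * (1 / 2) := by gcongr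
      _ = Real.log V / 2 := by ring
  set E : ℝ := Real.exp (C * ((k : ℝ) + m) ^ C) with hE
  -- the power of `M` in the mean value
  have h4 : (J s k M : ℝ) ^ 2 * (M : ℝ) ^ (8 * s ^ 2 - 4 * s) * (M : ℝ) ^ (k * (k + 1)) ≤
      E ^ 2 * ((M : ℝ) ^ (8 * s ^ 2) * (M : ℝ) ^ ((k : ℝ) * (k + 1) * y)) := by
    have h5 : (J s k M : ℝ) ^ 2 ≤ (E * (M : ℝ) ^ (2 * ((k : ℝ) ^ 2 + k * m) - k * (k + 1) / 2 +
        k * (k + 1) / 2 * y)) ^ 2 := pow_le_pow_left₀ (by positivity) h2 2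
    have h6 : ((M : ℝ) ^ (2 * ((k : ℝ) ^ 2 + k * m) - k * (k + 1) / 2 + k * (k + 1) / 2 * y)) ^ 2 *
        (M : ℝ) ^ (8 * s ^ 2 - 4 * s) * (M : ℝ) ^ (k * (k + 1)) =
        (M : ℝ) ^ (8 * s ^ 2) * (M : ℝ) ^ ((k : ℝ) * (k + 1) * y) := by
      rw [← Real.rpow_natCast _ 2, ← Real.rpow_mul hM0.le, ← Real.rpow_natCast _ (8 * s ^ 2 - 4 * s),
        ← Real.rpow_natCast _ (k * (k + 1)), ← Real.rpow_natCast _ (8 * s ^ 2), ← Real.rpow_add hM0,
        ← Real.rpow_add hM0, ← Real.rpow_add hM0]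
      congr 1
      have h7 : 4 * s ≤ 8 * s ^ 2 := by nlinarith
      rw [Nat.cast_sub h7]
      have h8 : (s : ℝ) = (k : ℝ) ^ 2 + k * m := by rw [hs]; push_cast; ring
      push_cast
      rw [h8]
      ring
    calc _ ≤ (E * (M : ℝ) ^ (2 * ((k : ℝ) ^ 2 + k * m) - k * (k + 1) / 2 +
        k * (k + 1) / 2 * y)) ^ 2 * (M : ℝ) ^ (8 * s ^ 2 - 4 * s) * (M : ℝ) ^ (k * (k + 1)) := by gcongr
      _ = _ := by rw [mul_pow, mul_assoc, mul_assoc, ← mul_assoc (_ ^ 2) (_ ^ _) (_ ^ _), h6]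
  have h5 : ‖TT k M β‖ ^ (4 * s ^ 2) ≤ (M : ℝ) ^ (8 * s ^ 2) *
      (E ^ 2 * (15 * (s : ℝ) ^ 2) ^ k * (Real.exp (Real.log V / 2) / V)) := by
    refine h1.trans ?_
    calc _ ≤ (M : ℝ) ^ (8 * s ^ 2 - 4 * s) * (J s k M : ℝ) ^ 2 *
          ((15 * (s : ℝ) ^ 2) ^ k * (M : ℝ) ^ (k * (k + 1)) / V) := by gcongr
      _ = ((J s k M : ℝ) ^ 2 * (M : ℝ) ^ (8 * s ^ 2 - 4 * s) * (M : ℝ) ^ (k * (k + 1))) *
          ((15 * (s : ℝ) ^ 2) ^ k / V) := by ring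
      _ ≤ (E ^ 2 * ((M : ℝ) ^ (8 * s ^ 2) * (M : ℝ) ^ ((k : ℝ) * (k + 1) * y))) *
          ((15 * (s : ℝ) ^ 2) ^ k / V) := by gcongr
      _ ≤ (E ^ 2 * ((M : ℝ) ^ (8 * s ^ 2) * Real.exp (Real.log V / 2))) *
          ((15 * (s : ℝ) ^ 2) ^ k / V) := by gcongr
      _ = _ := by ring
  have h6 : E ^ 2 * (15 * (s : ℝ) ^ 2) ^ k * (Real.exp (Real.log V / 2) / V) ≤
      Real.exp (-L) ^ (4 * s ^ 2) := by
    have e1 : E ^ 2 = Real.exp (2 * (C * ((k : ℝ) + m) ^ C)) := by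
      rw [hE, ← Real.exp_nat_mul]; norm_num
    have e2 : (15 * (s : ℝ) ^ 2) ^ k = Real.exp (k * Real.log (15 * (s : ℝ) ^ 2)) := by
      rw [Real.exp_nat_mul, Real.exp_log (by positivity)]
    have e3 : Real.exp (Real.log V / 2) / V = Real.exp (Real.log V / 2 - Real.log V) := by
      rw [Real.exp_sub, Real.exp_log hV0]
    rw [e1, e2, e3, ← Real.exp_nat_mul, ← Real.exp_add, ← Real.exp_add, Real.exp_le_exp]
    push_cast
    linarith
  have h7 : ‖TT k M β‖ ^ (4 * s ^ 2) ≤ ((M : ℝ) ^ 2 * Real.exp (-L)) ^ (4 * s ^ 2) := by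
    rw [mul_pow, ← pow_mul]
    have : 2 * (4 * s ^ 2) = 8 * s ^ 2 := by ring
    rw [this]
    refine h5.trans ?_
    gcongr
  have h8 : 4 * s ^ 2 ≠ 0 := by positivity
  exact (pow_le_pow_iff_left₀ (norm_nonneg _) (by positivity) h8).1 h7

end Pool.Agent.Helper478.Bases
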