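import Mathlib
import Pool.Agent.H469R2.NK.Vdc

/-!
# Weyl sums by van der Corput differencing with short shifts

`Ph k α f`: the function `f` on the natural numbers is a polynomial of degree at most `k` with `k`-th
coefficient `α`, described through its differences.
-/

set_option autoImplicit false

namespace Pool.Agent.Helper478.Bases

open Finset
open Pool.Agent.H469R2.NK (e norm_e e_add e_zero conj_e vdcH)

/-- `f` is a polynomial of degree at most `k` with `k`-th coefficient `α` -/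
def Ph : ℕ → ℝ → (ℕ → ℝ) → Prop
  | 0, α, f => ∀ n, f n = α
  | k + 1, α, f => ∀ d : ℕ, Ph k ((k + 1) * d * α) (fun n => f (n + d) - f n)

lemma Ph.add : ∀ {k : ℕ} {α β : ℝ} {f g : ℕ → ℝ}, Ph k α f → Ph k β g →
    Ph k (α + β) (fun n => f n + g n)
  | 0, α, β, f, g, hf, hg => fun n => by
      have h1 := hf n
      have h2 := hg n
      simp only [h1, h2]
  | k + 1, α, β, f, g, hf, hg => fun d => by
      have h := (hf d).add (hg d)
      have e1 : (fun n => f (n + d) - f n + (g (n + d) - g n)) =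
          fun n => (f (n + d) + g (n + d)) - (f n + g n) := by
        funext n; ring
      rw [e1] at h
      have e2 : (((k : ℝ) + 1) * d * α + (k + 1) * d * β) = (k + 1) * d * (α + β) := by ring
      rw [e2] at h
      exact h

lemma Ph.smul : ∀ {k : ℕ} {α : ℝ} {f : ℕ → ℝ} (c : ℝ), Ph k α f → Ph k (c * α) (fun n => c * f n)
  | 0, α, f, c, hf => fun n => by
      have h1 := hf n
      simp only [h1]
  | k + 1, α, f, c, hf => fun d => by
      have h := (hf d).smul c
      have e1 : (fun n => c * (f (n + d) - f n)) = fun n => c * f (n + d) - c * f n := by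
        funext n; ring
      rw [e1] at h
      have e2 : (c * (((k : ℝ) + 1) * d * α)) = (k + 1) * d * (c * α) := by ring
      rw [e2] at h
      exact h

lemma Ph.up : ∀ {k : ℕ} {α : ℝ} {f : ℕ → ℝ}, Ph k α f → Ph (k + 1) 0 f
  | 0, α, f, hf => fun d n => by
      have h1 := hf n
      have h2 := hf (n + d)
      simp only [h1, h2]
      simp
  | k + 1, α, f, hf => fun d => by
      have h := (hf d).up
      have e2 : ((((k + 1 : ℕ) : ℝ) + 1) * d * 0) = 0 := by ring
      rw [e2]
      exact h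

lemma Ph.up_lt {j k : ℕ} {α : ℝ} {f : ℕ → ℝ} (h : Ph j α f) (hjk : j < k) : Ph k 0 f := by
  induction k with
  | zero => omega
  | succ k ih =>
    rcases Nat.lt_succ_iff_lt_or_eq.1 hjk with h1 | h1
    · exact (ih h1).up
    · subst h1; exact h.up

lemma Ph.congr {k : ℕ} {α β : ℝ} {f g : ℕ → ℝ} (h : Ph k α f) (h1 : α = β) (h2 : ∀ n, f n = g n) :
    Ph k β g := by
  have : f = g := funext h2
  rw [← this, ← h1]; exact h

lemma Ph.sum {ι : Type*} {k : ℕ} (S : Finset ι) {α : ι → ℝ} {f : ι → ℕ → ℝ}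
    (h : ∀ i ∈ S, Ph k (α i) (f i)) : Ph k (∑ i ∈ S, α i) (fun n => ∑ i ∈ S, f i n) := by
  classical
  induction S using Finset.induction_on with
  | empty =>
    simp only [sum_empty]
    have h0 : Ph 0 0 (fun _ => 0) := fun n => rfl
    rcases Nat.eq_zero_or_pos k with hk | hk
    · subst hk; exact h0
    · exact h0.up_lt hk
  | insert a S ha ih =>
    have h1 := (h a (mem_insert_self a S)).add (ih fun i hi => h i (mem_insert_of_mem hi))
    exact h1.congr (by rw [sum_insert ha]) (fun n => by rw [sum_insert ha])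

lemma Ph.pow (k : ℕ) : Ph k 1 (fun n => (n : ℝ) ^ k) := by
  induction k using Nat.strong_induction_on with
  | _ k ih =>
    rcases k with _ | k
    · intro n; simp
    · intro d
      have h : Ph k (∑ i ∈ range (k + 1), if i = k then ((k : ℝ) + 1) * d else 0)
          (fun n => ∑ i ∈ range (k + 1), (((k + 1).choose i : ℝ) * (d : ℝ) ^ (k + 1 - i)) * (n : ℝ) ^ i) := by
        apply Ph.sum
        intro i hi
        have hi' := mem_range.1 hi
        by_cases hik : i = k
        · subst hik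
          rw [if_pos rfl]
          refine ((ih i (by omega)).smul (((i + 1).choose i : ℝ) * (d : ℝ) ^ (i + 1 - i))).congr ?_
            (fun n => rfl)
          rw [Nat.choose_succ_self_right, Nat.add_sub_cancel_left]
          push_cast
          ring
        · rw [if_neg hik]
          have h2 := (ih i (by omega)).smul (((k + 1).choose i : ℝ) * (d : ℝ) ^ (k + 1 - i))
          exact h2.up_lt (by omega)
      refine h.congr ?_ (fun n => ?_)
      · rw [Finset.sum_ite_eq' (range (k + 1)) k]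
        simp
      · have e1 : ((n + d : ℕ) : ℝ) ^ (k + 1) = ∑ i ∈ range (k + 1 + 1),
            (n : ℝ) ^ i * (d : ℝ) ^ (k + 1 - i) * ((k + 1).choose i : ℝ) := by
          push_cast
          exact add_pow _ _ _
        show _ = ((n + d : ℕ) : ℝ) ^ (k + 1) - (n : ℝ) ^ (k + 1)
        rw [e1, sum_range_succ _ (k + 1)]
        simp only [Nat.sub_self, pow_zero, mul_one, Nat.choose_self, Nat.cast_one]
        rw [add_sub_cancel_right]
        refine sum_congr rfl fun i _ => ?_
        ring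

/-- a polynomial with bounded degree -/
lemma Ph.poly (N : ℕ) (a : ℕ → ℝ) (k : ℕ) (hk : k ≤ N) (hz : ∀ i, k < i → i ≤ N → a i = 0) :
    Ph k (a k) (fun n => ∑ i ∈ range (N + 1), a i * (n : ℝ) ^ i) := by
  have h : Ph k (∑ i ∈ range (k + 1), if i = k then a k else 0)
      (fun n => ∑ i ∈ range (k + 1), a i * (n : ℝ) ^ i) := by
    apply Ph.sum
    intro i hi
    have hi' := mem_range.1 hi
    by_cases hik : i = k
    · subst hik
      rw [if_pos rfl]
      exact ((Ph.pow i).smul (a i)).congr (mul_one _) fun n => rfl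
    · rw [if_neg hik]
      exact ((Ph.pow i).smul (a i)).up_lt (by omega)
  refine h.congr ?_ (fun n => ?_)
  · rw [Finset.sum_ite_eq' (range (k + 1)) k]
    simp
  · apply sum_subset (range_subset_range.2 (by omega))
    intro i hi hi2
    rw [mem_range] at hi hi2
    rw [hz i (by omega) (by omega), zero_mul]

lemma e_intCast (k : ℤ) : e (k : ℝ) = 1 := by
  unfold Pool.Agent.H469R2.NK.e
  rw [Complex.exp_eq_one_iff]
  exact ⟨k, by push_cast; ring⟩

lemma e_natmul (n : ℕ) (t : ℝ) : e (n * t) = e t ^ n := by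
  induction n with
  | zero => simp [e_zero]
  | succ n ih =>
    rw [pow_succ, ← ih, ← e_add]
    congr 1
    push_cast
    ring

lemma norm_e_sub_one_ge (t η : ℝ) (h : ∀ P : ℤ, η ≤ |t - P|) : η ≤ ‖e t - 1‖ := by
  rcases le_total η 0 with hη0 | hη
  · exact hη0.trans (norm_nonneg _)
  have h1 : e t = Complex.exp (Complex.I * ((2 * Real.pi * t : ℝ) : ℂ)) := by
    unfold Pool.Agent.H469R2.NK.e; rw [mul_comm]
  have h2 : ‖e t - 1‖ = 2 * |Real.sin (Real.pi * t)| := by
    rw [h1, Complex.norm_exp_I_mul_ofReal_sub_one]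
    rw [show 2 * Real.pi * t / 2 = Real.pi * t by ring]
    rw [norm_mul, Real.norm_eq_abs, Real.norm_eq_abs, abs_of_pos (by norm_num : (0 : ℝ) < 2)]
  rw [h2]
  set u : ℝ := t - round t with hu
  have hu1 : |u| ≤ 1 / 2 := abs_sub_round t
  have hu2 : η ≤ |u| := h (round t)
  have h3 : |Real.sin (Real.pi * t)| = |Real.sin (Real.pi * u)| := by
    have : Real.pi * t = Real.pi * u + (round t : ℤ) * Real.pi := by rw [hu]; ring
    rw [this]
    rw [Real.sin_add_int_mul_pi, abs_mul]
    rw [abs_zpow, abs_neg, abs_one, one_zpow, one_mul]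
  rw [h3]
  have hpi := Real.pi_pos
  have hpi3 := Real.pi_gt_three
  have h4 : |Real.sin (Real.pi * u)| = Real.sin (Real.pi * |u|) := by
    rcases le_total 0 u with hu0 | hu0
    · rw [abs_of_nonneg hu0, abs_of_nonneg]
      apply Real.sin_nonneg_of_nonneg_of_le_pi (by positivity)
      rw [abs_of_nonneg hu0] at hu1
      nlinarith
    · rw [abs_of_nonpos hu0]
      rw [show Real.pi * -u = -(Real.pi * u) by ring, Real.sin_neg]
      rw [abs_of_nonpos]
      apply Real.sin_nonpos_of_nonpos_of_neg_pi_le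
      · nlinarith
      · rw [abs_of_nonpos hu0] at hu1
        nlinarith
  rw [h4]
  have h5 : 2 / Real.pi * (Real.pi * |u|) ≤ Real.sin (Real.pi * |u|) :=
    Real.mul_le_sin (by positivity) (by nlinarith)
  have h6 : 2 / Real.pi * (Real.pi * |u|) = 2 * |u| := by field_simp
  rw [h6] at h5
  linarith

/-- a geometric sum -/
lemma geom (t η : ℝ) (hη : 0 < η) (h : ∀ P : ℤ, η ≤ |t - P|) (y : ℝ) (M : ℕ) :
    ‖∑ m ∈ range M, e (y + m * t)‖ ≤ 2 / η := by
  have h1 : ∀ m : ℕ, e (y + m * t) = e y * e t ^ m := by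
    intro m
    rw [← e_natmul, ← e_add]
  simp_rw [h1]
  rw [← mul_sum, norm_mul, norm_e, one_mul]
  have h2 := norm_e_sub_one_ge t η h
  have h3 : e t ≠ 1 := by
    intro h4
    rw [h4, sub_self, norm_zero] at h2
    linarith
  rw [geom_sum_eq h3, norm_div]
  have h4 : ‖e t ^ M - 1‖ ≤ 2 := by
    refine (norm_sub_le _ _).trans ?_
    rw [norm_pow, norm_e, one_pow, norm_one]
    norm_num
  calc ‖e t ^ M - 1‖ / ‖e t - 1‖ ≤ 2 / ‖e t - 1‖ := by gcongr
    _ ≤ 2 / η := by
      apply div_le_div_of_nonneg_left (by norm_num) hη h2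

/-- **Weyl sums**: if the multiples `m α`, `m ≤ (k + 1)! D ^ k`, of the leading coefficient are at
distance at least `D / (2 L)` from the integers, then the sum over an interval of length at most `L`
is at most `5 L D ^ (- 1 / 2 ^ k)`. -/
theorem weyl (D L : ℕ) (hD : 1 ≤ D) (hDL : D ≤ L) : ∀ (k : ℕ) (α : ℝ) (f : ℕ → ℝ), Ph (k + 1) α f →
    (∀ m : ℕ, 1 ≤ m → m ≤ (k + 1).factorial * D ^ k → ∀ P : ℤ, (D : ℝ) / (2 * L) ≤ |m * α - P|) →
    ∀ M : ℕ, M ≤ L → ‖∑ n ∈ range M, e (f n)‖ ≤ 5 * L * (D : ℝ) ^ (-(1 / 2 ^ k : ℝ)) := by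
  have hD0 : (0 : ℝ) < D := by exact_mod_cast hD
  have hD1 : (1 : ℝ) ≤ D := by exact_mod_cast hD
  have hL0 : (0 : ℝ) < L := by exact_mod_cast (hD.trans hDL)
  intro k
  induction k with
  | zero =>
    intro α f hf hm M hM
    have h1 : ∀ n : ℕ, f n = f 0 + n * α := by
      intro n
      have h2 := hf n 0
      simp only [zero_add, Nat.cast_zero] at h2
      linarith
    have h2 : ∀ n : ℕ, e (f n) = e (f 0 + n * α) := fun n => by rw [← h1]
    rw [sum_congr rfl fun n _ => h2 n]
    have h3 : ∀ P : ℤ, (D : ℝ) / (2 * L) ≤ |α - P| := by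
      intro P
      have := hm 1 le_rfl (by simp) P
      simpa using this
    refine (geom α (D / (2 * L)) (by positivity) h3 (f 0) M).trans ?_
    have e1 : (2 : ℝ) / (D / (2 * L)) = 4 * L * (D : ℝ)⁻¹ := by
      field_simp; ring
    rw [e1]
    have e2 : (D : ℝ) ^ (-(1 / 2 ^ 0 : ℝ)) = (D : ℝ)⁻¹ := by
      rw [pow_zero, div_one, Real.rpow_neg_one]
    rw [e2]
    have : 0 ≤ (L : ℝ) * (D : ℝ)⁻¹ := by positivity
    nlinarith
  | succ k ih =>
    intro α f hf hm M hM
    set θ : ℝ := (D : ℝ) ^ (-(1 / 2 ^ k : ℝ)) with hθ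
    have hθ0 : 0 < θ := Real.rpow_pos_of_pos hD0 _
    have hθD : (D : ℝ)⁻¹ ≤ θ := by
      rw [hθ, ← Real.rpow_neg_one]
      apply Real.rpow_le_rpow_of_exponent_le hD1
      have : (1 : ℝ) / 2 ^ k ≤ 1 := by
        rw [div_le_one (by positivity)]
        exact one_le_pow₀ (by norm_num)
      linarith
    have hv := vdcH (fun n => e (f n)) (fun n => (norm_e _).le) M D
    have hin : ∀ l ∈ Ico 1 D, ‖∑ n ∈ range (M - l), e (f (n + l)) * (starRingEnd ℂ) (e (f n))‖ ≤
        5 * L * θ := by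
      intro l hl
      rw [mem_Ico] at hl
      have h1 : ∀ n, e (f (n + l)) * (starRingEnd ℂ) (e (f n)) = e (f (n + l) - f n) := by
        intro n
        rw [conj_e, ← e_add, ← sub_eq_add_neg]
      rw [sum_congr rfl fun n _ => h1 n]
      refine ih ((((k + 1 : ℕ) : ℝ) + 1) * l * α) (fun n => f (n + l) - f n) (hf l) ?_ (M - l) (by omega)
      intro m hm1 hm2 P
      have h2 := hm (m * (k + 2) * l) (by
        have h1 : 1 ≤ m * (k + 2) := by nlinarith
        calc 1 = 1 * 1 := rfl
          _ ≤ m * (k + 2) * l := Nat.mul_le_mul h1 hl.1) (by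
        have h3 : (k + 1 + 1).factorial = (k + 2) * (k + 1).factorial := Nat.factorial_succ _
        rw [h3, pow_succ]
        calc m * (k + 2) * l ≤ ((k + 1).factorial * D ^ k) * (k + 2) * D := by
              apply Nat.mul_le_mul (Nat.mul_le_mul hm2 le_rfl) hl.2.le
          _ = (k + 2) * (k + 1).factorial * (D ^ k * D) := by ring) P
      convert h2 using 2
      push_cast
      ring
    have hsum : ∑ l ∈ Ico 1 D, ‖∑ n ∈ range (M - l), e (f (n + l)) * (starRingEnd ℂ) (e (f n))‖ ≤
        D * (5 * L * θ) := by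
      refine (sum_le_sum hin).trans ?_
      rw [sum_const, Nat.card_Ico, nsmul_eq_mul]
      apply mul_le_mul_of_nonneg_right _ (by positivity)
      have : ((D - 1 : ℕ) : ℝ) ≤ D := by exact_mod_cast Nat.sub_le D 1
      exact this
    have hML : (M : ℝ) ≤ L := by exact_mod_cast hM
    have hDL' : (D : ℝ) ≤ L := by exact_mod_cast hDL
    have hM0 : (0 : ℝ) ≤ M := Nat.cast_nonneg M
    set S : ℝ := ‖∑ n ∈ range M, e (f n)‖ with hS
    have hS0 : 0 ≤ S := norm_nonneg _
    have h3 : (D : ℝ) * S ^ 2 ≤ (2 * L) * (L + 2 * (D * (5 * L * θ))) := by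
      refine hv.trans ?_
      apply mul_le_mul (by linarith) (by linarith) _ (by positivity)
      have : 0 ≤ ∑ l ∈ Ico 1 D, ‖∑ n ∈ range (M - l), e (f (n + l)) * (starRingEnd ℂ) (e (f n))‖ :=
        sum_nonneg fun _ _ => norm_nonneg _
      linarith
    have h4 : S ^ 2 ≤ 25 * (L : ℝ) ^ 2 * θ := by
      have h5 : S ^ 2 ≤ (2 * L) * (L * (D : ℝ)⁻¹ + 10 * L * θ) := by
        have h6 : (D : ℝ) * S ^ 2 ≤ D * ((2 * L) * (L * (D : ℝ)⁻¹ + 10 * L * θ)) := by
          refine h3.trans (le_of_eq ?_)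
          field_simp
          ring
        exact le_of_mul_le_mul_left h6 hD0
      have h7 : (L : ℝ) ^ 2 * (D : ℝ)⁻¹ ≤ (L : ℝ) ^ 2 * θ := by gcongr
      have h8 : 0 ≤ (L : ℝ) ^ 2 * θ := by positivity
      nlinarith
    have h9 : (5 * L * (D : ℝ) ^ (-(1 / 2 ^ (k + 1) : ℝ))) ^ 2 = 25 * (L : ℝ) ^ 2 * θ := by
      rw [mul_pow, mul_pow]
      have : ((D : ℝ) ^ (-(1 / 2 ^ (k + 1) : ℝ))) ^ 2 = θ := by
        rw [hθ, ← Real.rpow_natCast, ← Real.rpow_mul hD0.le]
        congr 1
        rw [pow_succ]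
        push_cast
        field_simp
      rw [this]
      norm_num
    have h10 : 0 ≤ 5 * L * (D : ℝ) ^ (-(1 / 2 ^ (k + 1) : ℝ)) := by positivity
    rw [← h9] at h4
    exact (sq_le_sq₀ hS0 h10).1 h4

end Pool.Agent.Helper478.Bases
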